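import Pool.Agent.H428R2.HamSub

/-!
# Graphs made of 8-cycles joined by long paths
-/

namespace H428R2

open SimpleGraph

variable {n : ℕ}

/-- The partner of `c` on the 8-cycle in state `b`: the edges are `{0,1},{2,3},{4,5},{6,7}` for
`false` and `{1,2},{3,4},{5,6},{7,0}` for `true`. -/
def mu (b : Bool) (c : Fin 8) : Fin 8 :=
  if (c.val % 2 = 1) = (b = true) then c + 1 else c - 1

theorem mu_mu (b : Bool) (c : Fin 8) : mu b (mu b c) = c := by
  revert b c; decide

theorem mu_ne (b : Bool) (c : Fin 8) : mu b c ≠ c := by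
  revert b c; decide

theorem mu_adj (b : Bool) (c : Fin 8) : c + 1 = mu b c ∨ mu b c + 1 = c := by
  revert b c; decide

/-- Three permutations of the places: all places in one cycle, the blocks, and the occurrences of
the same variable. -/
structure Rot (n : ℕ) where
  /-- next place -/
  N : Equiv.Perm (Fin n)
  /-- next place in the block -/
  M : Equiv.Perm (Fin n)
  /-- next occurrence of the same variable -/
  K : Equiv.Perm (Fin n)

/-- The other end of the wire that starts in a point. -/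
def Rot.om (R : Rot n) (x : Fin n × Fin 8) : Fin n × Fin 8 :=
  if x.2 = 0 then (R.K x.1, 3)
  else if x.2 = 1 then (R.K x.1, 4)
  else if x.2 = 2 then (R.N.symm x.1, 5)
  else if x.2 = 3 then (R.K.symm x.1, 0)
  else if x.2 = 4 then (R.K.symm x.1, 1)
  else if x.2 = 5 then (R.N x.1, 2)
  else if x.2 = 6 then (R.M x.1, 7)
  else (R.M.symm x.1, 6)

theorem Rot.om_om (R : Rot n) (x : Fin n × Fin 8) : R.om (R.om x) = x := by
  obtain ⟨s, c⟩ := x
  fin_cases c <;> simp [Rot.om]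

theorem Rot.om_snd_ne (R : Rot n) (x : Fin n × Fin 8) : (R.om x).2 ≠ x.2 := by
  obtain ⟨s, c⟩ := x
  fin_cases c <;> simp [Rot.om]

theorem Rot.om_ne (R : Rot n) (x : Fin n × Fin 8) : R.om x ≠ x :=
  fun h => R.om_snd_ne x (congrArg Prod.snd h)

/-- Vertices: for each point, its half of the wire. -/
abbrev Vtx (n L : ℕ) : Type := (Fin n × Fin 8) × Fin (L + 1)

/-- The graph: every wire becomes a path with `2 L` inner vertices. -/
def Rot.G (R : Rot n) (L : ℕ) : SimpleGraph (Vtx n L) where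
  Adj u v := (u.1 = v.1 ∧ (u.2.val + 1 = v.2.val ∨ v.2.val + 1 = u.2.val)) ∨
    (v.1 = R.om u.1 ∧ u.2.val = L ∧ v.2.val = L) ∨
    (u.1.1 = v.1.1 ∧ (u.1.2 + 1 = v.1.2 ∨ v.1.2 + 1 = u.1.2) ∧ u.2.val = 0 ∧ v.2.val = 0)
  symm := ⟨by
    rintro u v (⟨h1, h2⟩ | ⟨h1, h2, h3⟩ | ⟨h1, h2, h3, h4⟩)
    · exact Or.inl ⟨h1.symm, h2.symm⟩
    · exact Or.inr (Or.inl ⟨by rw [h1, R.om_om], h3, h2⟩)
    · exact Or.inr (Or.inr ⟨h1.symm, h2.symm, h4, h3⟩)⟩
  loopless := ⟨by
    rintro u (⟨h1, h2⟩ | ⟨h1, h2, h3⟩ | ⟨h1, h2, h3, h4⟩)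
    · omega
    · exact R.om_ne _ h1.symm
    · revert h2; generalize u.1.2 = c; revert c; decide⟩

/-- The subgraph for a choice of states. -/
def Rot.Fb (R : Rot n) (L : ℕ) (b : Fin n → Bool) : SimpleGraph (Vtx n L) where
  Adj u v := (u.1 = v.1 ∧ (u.2.val + 1 = v.2.val ∨ v.2.val + 1 = u.2.val)) ∨
    (v.1 = R.om u.1 ∧ u.2.val = L ∧ v.2.val = L) ∨
    (v.1 = (u.1.1, mu (b u.1.1) u.1.2) ∧ u.2.val = 0 ∧ v.2.val = 0)
  symm := ⟨by
    rintro u v (⟨h1, h2⟩ | ⟨h1, h2, h3⟩ | ⟨h1, h2, h3⟩)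
    · exact Or.inl ⟨h1.symm, h2.symm⟩
    · exact Or.inr (Or.inl ⟨by rw [h1, R.om_om], h3, h2⟩)
    · exact Or.inr (Or.inr ⟨by rw [h1]; simp only [mu_mu], h3, h2⟩)⟩
  loopless := ⟨by
    rintro u (⟨h1, h2⟩ | ⟨h1, h2, h3⟩ | ⟨h1, h2, h3⟩)
    · omega
    · exact R.om_ne _ h1.symm
    · exact mu_ne _ _ (congrArg Prod.snd h1).symm⟩

theorem Rot.Fb_le (R : Rot n) (L : ℕ) (b : Fin n → Bool) : R.Fb L b ≤ R.G L := by
  rintro u v (⟨h1, h2⟩ | ⟨h1, h2, h3⟩ | ⟨h1, h2, h3⟩)
  · exact Or.inl ⟨h1, h2⟩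
  · exact Or.inr (Or.inl ⟨h1, h2, h3⟩)
  · refine Or.inr (Or.inr ⟨by rw [h1], ?_, h2, h3⟩)
    rw [h1]
    exact mu_adj _ _

theorem Rot.Fb_ncard (R : Rot n) {L : ℕ} (hL : 1 ≤ L) (b : Fin n → Bool) (v : Vtx n L) :
    ((R.Fb L b).neighborSet v).ncard = 2 := by
  obtain ⟨x, p, hp⟩ := v
  rw [Set.ncard_eq_two]
  by_cases h0 : p = 0
  · subst h0
    refine ⟨(x, ⟨1, by omega⟩), ((x.1, mu (b x.1) x.2), ⟨0, by omega⟩), ?_, ?_⟩
    · intro h
      simp at h
    · ext ⟨y, q, hq⟩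
      simp only [mem_neighborSet, Rot.Fb, Set.mem_insert_iff, Set.mem_singleton_iff,
        Prod.mk.injEq, Fin.mk.injEq]
      constructor
      · rintro (⟨h1, h2⟩ | ⟨h1, h2, h3⟩ | ⟨h1, h2, h3⟩)
        · left; exact ⟨h1.symm, by omega⟩
        · omega
        · right; exact ⟨h1, h3⟩
      · rintro (⟨h1, h2⟩ | ⟨h1, h2⟩)
        · left; exact ⟨h1.symm, by omega⟩
        · right; right; exact ⟨h1, trivial, h2⟩
  · by_cases h1 : p = L
    · subst h1
      refine ⟨(x, ⟨p - 1, by omega⟩), (R.om x, ⟨p, by omega⟩), ?_, ?_⟩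
      · intro h
        simp only [Prod.mk.injEq, Fin.mk.injEq] at h
        omega
      · ext ⟨y, q, hq⟩
        simp only [mem_neighborSet, Rot.Fb, Set.mem_insert_iff, Set.mem_singleton_iff,
          Prod.mk.injEq, Fin.mk.injEq]
        constructor
        · rintro (⟨h1, h2⟩ | ⟨h1, h2, h3⟩ | ⟨h1, h2, h3⟩)
          · left; exact ⟨h1.symm, by omega⟩
          · right; exact ⟨h1, h3⟩
          · omega
        · rintro (⟨h1, h2⟩ | ⟨h1, h2⟩)
          · left; exact ⟨h1.symm, by omega⟩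
          · right; left; exact ⟨h1, trivial, h2⟩
    · refine ⟨(x, ⟨p - 1, by omega⟩), (x, ⟨p + 1, by omega⟩), ?_, ?_⟩
      · intro h
        simp only [Prod.mk.injEq, Fin.mk.injEq] at h
        omega
      · ext ⟨y, q, hq⟩
        simp only [mem_neighborSet, Rot.Fb, Set.mem_insert_iff, Set.mem_singleton_iff,
          Prod.mk.injEq, Fin.mk.injEq]
        constructor
        · rintro (⟨h1, h2⟩ | ⟨h1, h2, h3⟩ | ⟨h1, h2, h3⟩)
          · by_cases hq : q + 1 = p
            · left; exact ⟨h1.symm, by omega⟩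
            · right; exact ⟨h1.symm, by omega⟩
          · omega
          · omega
        · rintro (⟨h1, h2⟩ | ⟨h1, h2⟩)
          · left; exact ⟨h1.symm, by omega⟩
          · left; exact ⟨h1.symm, by omega⟩

/-- All edges at an inner vertex of a wire belong to every 2-regular subgraph. -/
theorem Rot.forced (R : Rot n) {L : ℕ} {F : SimpleGraph (Vtx n L)}
    (hF : F ≤ R.G L) (h2 : ∀ v, (F.neighborSet v).ncard = 2) (v w : Vtx n L)
    (hv : v.2.val ≠ 0) (hvw : (R.G L).Adj v w) : F.Adj v w := by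
  obtain ⟨x, p, hp⟩ := v
  simp only at hv
  have hsub : ∃ a b : Vtx n L, (R.G L).neighborSet (x, ⟨p, hp⟩) ⊆ {a, b} := by
    by_cases h1 : p = L
    · subst h1
      refine ⟨(x, ⟨p - 1, by omega⟩), (R.om x, ⟨p, by omega⟩), ?_⟩
      rintro ⟨y, q, hq⟩
      simp only [mem_neighborSet, Rot.G, Set.mem_insert_iff, Set.mem_singleton_iff,
        Prod.mk.injEq, Fin.mk.injEq]
      rintro (⟨h1, h2⟩ | ⟨h1, h2, h3⟩ | ⟨h1, h2, h3, h4⟩)
      · left; exact ⟨h1.symm, by omega⟩
      · right; exact ⟨h1, h3⟩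
      · omega
    · refine ⟨(x, ⟨p - 1, by omega⟩), (x, ⟨p + 1, by omega⟩), ?_⟩
      rintro ⟨y, q, hq⟩
      simp only [mem_neighborSet, Rot.G, Set.mem_insert_iff, Set.mem_singleton_iff,
        Prod.mk.injEq, Fin.mk.injEq]
      rintro (⟨h1, h2⟩ | ⟨h1, h2, h3⟩ | ⟨h1, h2, h3, h4⟩)
      · by_cases hq : q + 1 = p
        · left; exact ⟨h1.symm, by omega⟩
        · right; exact ⟨h1.symm, by omega⟩
      · omega
      · omega
  obtain ⟨a, b, hab⟩ := hsub
  have hFG : F.neighborSet (x, ⟨p, hp⟩) ⊆ (R.G L).neighborSet (x, ⟨p, hp⟩) := fun w hw => hF hw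
  have h3 : ((R.G L).neighborSet (x, ⟨p, hp⟩)).ncard ≤ (F.neighborSet (x, ⟨p, hp⟩)).ncard := by
    rw [h2]
    refine (Set.ncard_le_ncard hab).trans ?_
    exact (Set.ncard_insert_le _ _).trans (by simp)
  have := Set.eq_of_subset_of_ncard_le hFG h3
  have hw : w ∈ (R.G L).neighborSet (x, ⟨p, hp⟩) := hvw
  rw [← this] at hw
  exact hw

theorem alt_aux (A : Fin 8 → Bool) (h : ∀ c, A c = !(A (c - 1))) (c : Fin 8) :
    A c = (decide (c.val % 2 = 1) == A 1) := by
  have e1 : A 1 = !(A 0) := h 1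
  have e2 : A 2 = !(A 1) := h 2
  have e3 : A 3 = !(A 2) := h 3
  have e4 : A 4 = !(A 3) := h 4
  have e5 : A 5 = !(A 4) := h 5
  have e6 : A 6 = !(A 5) := h 6
  have e7 : A 7 = !(A 6) := h 7
  have e0 : A 0 = !(A 1) := by rw [e1]; simp
  match c with
  | 0 => rw [e0]; cases A 1 <;> rfl
  | 1 => cases A 1 <;> rfl
  | 2 => rw [e2]; cases A 1 <;> rfl
  | 3 => rw [e3, e2]; cases A 1 <;> rfl
  | 4 => rw [e4, e3, e2]; cases A 1 <;> rfl
  | 5 => rw [e5, e4, e3, e2]; cases A 1 <;> rfl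
  | 6 => rw [e6, e5, e4, e3, e2]; cases A 1 <;> rfl
  | 7 => rw [e7, e6, e5, e4, e3, e2]; cases A 1 <;> rfl

theorem Rot.exists_state (R : Rot n) {L : ℕ} (hL : 1 ≤ L) {F : SimpleGraph (Vtx n L)}
    (hF : F ≤ R.G L) (h2 : ∀ v, (F.neighborSet v).ncard = 2) : ∃ b, F ≤ R.Fb L b := by
  classical
  set z : Fin (L + 1) := ⟨0, by omega⟩ with hz
  -- the wire edges at a point are used
  have hw1 : ∀ x : Fin n × Fin 8, F.Adj (x, z) (x, ⟨1, by omega⟩) := by
    intro x
    refine (R.forced hF h2 (x, ⟨1, by omega⟩) (x, z) (by simp) ?_).symm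
    left
    exact ⟨rfl, by simp [hz]⟩
  have key : ∀ (s : Fin n) (c : Fin 8),
      (F.Adj ((s, c), z) ((s, c + 1), z) ↔ ¬ F.Adj ((s, c), z) ((s, c - 1), z)) := by
    intro s c
    have hsub : F.neighborSet ((s, c), z) ⊆
        {((s, c), ⟨1, by omega⟩), ((s, c + 1), z), ((s, c - 1), z)} := by
      rintro ⟨⟨t, d⟩, q, hq⟩ h
      have := hF h
      simp only [Set.mem_insert_iff, Set.mem_singleton_iff, Prod.mk.injEq]
      rcases this with ⟨h1, h2⟩ | ⟨h1, h2, h3⟩ | ⟨h1, h2, h3, h4⟩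
      · left
        simp only [Prod.mk.injEq] at h1
        simp only [hz] at h2
        exact ⟨⟨h1.1.symm, h1.2.symm⟩, by simp; omega⟩
      · simp only [hz] at h2
        omega
      · right
        simp only at h1 h2 h3 h4
        subst h1
        rcases h2 with h2 | h2
        · left
          exact ⟨⟨rfl, h2.symm⟩, by simp [hz, h4]⟩
        · right
          exact ⟨⟨rfl, by rw [← h2]; simp⟩, by simp [hz, h4]⟩
    have h2' := h2 ((s, c), z)
    have hcc : ∀ c : Fin 8, c + 1 ≠ c - 1 := by decide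
    constructor
    · intro ha hb
      have : ({((s, c), ⟨1, by omega⟩), ((s, c + 1), z), ((s, c - 1), z)} : Set (Vtx n L)) ⊆
          F.neighborSet ((s, c), z) := by
        rintro w (rfl | rfl | rfl)
        · exact hw1 _
        · exact ha
        · exact hb
      have h3 := Set.ncard_le_ncard this
      rw [h2'] at h3
      have h4 : ({((s, c), ⟨1, by omega⟩), ((s, c + 1), z), ((s, c - 1), z)} :
          Set (Vtx n L)).ncard = 3 := by
        rw [Set.ncard_eq_three]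
        refine ⟨_, _, _, ?_, ?_, ?_, rfl⟩
        · simp [hz]
        · simp [hz]
        · simp [hcc c]
      omega
    · intro hb
      by_contra ha
      have : F.neighborSet ((s, c), z) ⊆ {((s, c), ⟨1, by omega⟩)} := by
        intro w hw
        rcases hsub hw with h | h | h
        · exact h
        · exact absurd (h ▸ hw) ha
        · exact absurd (Set.mem_singleton_iff.1 h ▸ hw) hb
      have h3 := Set.ncard_le_ncard this
      rw [h2', Set.ncard_singleton] at h3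
      omega
  -- alternation
  have alt : ∀ (s : Fin n) (c : Fin 8), decide (F.Adj ((s, c), z) ((s, c + 1), z)) =
      (decide (c.val % 2 = 1) == decide (F.Adj ((s, 1), z) ((s, 2), z))) := by
    intro s c
    refine alt_aux (fun c => decide (F.Adj ((s, c), z) ((s, c + 1), z))) (fun c => ?_) c
    simp only [sub_add_cancel, ← decide_not, decide_eq_decide]
    rw [key, adj_comm]
  refine ⟨fun s => decide (F.Adj ((s, 1), z) ((s, 2), z)), ?_⟩
  rintro ⟨⟨s, c⟩, p, hp⟩ ⟨⟨t, d⟩, q, hq⟩ h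
  rcases hF h with ⟨h1, h2⟩ | ⟨h1, h2, h3⟩ | ⟨h1, h2, h3, h4⟩
  · exact Or.inl ⟨h1, h2⟩
  · exact Or.inr (Or.inl ⟨h1, h2, h3⟩)
  · refine Or.inr (Or.inr ⟨?_, h3, h4⟩)
    simp only at h1 h2 h3 h4 ⊢
    subst h1 h3 h4
    refine Prod.ext rfl ?_
    simp only [mu, decide_eq_true_eq]
    have hpar : ∀ c : Fin 8, (decide ((c + 1).val % 2 = 1)) = !(decide (c.val % 2 = 1)) := by
      decide
    rcases h2 with h2 | h2
    · subst h2
      have h5 := alt s c
      rw [decide_eq_true (show F.Adj ((s, c), z) ((s, c + 1), z) from h)] at h5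
      simp only [eq_comm (a := true), beq_iff_eq, decide_eq_decide] at h5
      rw [if_pos (propext h5)]
    · subst h2
      have h5 := alt s d
      rw [decide_eq_true (show F.Adj ((s, d), z) ((s, d + 1), z) from h.symm)] at h5
      simp only [eq_comm (a := true), beq_iff_eq] at h5
      have h6 := hpar d
      rw [h5] at h6
      rw [if_neg ?_]
      · simp
      · intro h7
        rw [eq_iff_iff] at h7
        by_cases h8 : F.Adj ((s, 1), z) ((s, 2), z)
        · simp [h8] at h6 h7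
          omega
        · simp [h8] at h6 h7
          omega

end H428R2
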