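import Pool.Agent.H428R2.Abs

/-!
# Hamiltonicity of the graphs of `Abs` as an exact-one satisfiability problem
-/

namespace H428R2

open SimpleGraph

variable {n : ℕ}

theorem Rot.hasHamCycle_iff (R : Rot n) {L : ℕ} (hL : 1 ≤ L) :
    HasHamCycle (R.G L) ↔ ∃ b, (R.Fb L b).Connected := by
  rw [H428R2.hasHamCycle_iff]
  constructor
  · rintro ⟨F, hF, hc, h2⟩
    obtain ⟨b, hb⟩ := R.exists_state hL hF h2
    exact ⟨b, hc.mono hb⟩
  · rintro ⟨b, hb⟩
    exact ⟨R.Fb L b, R.Fb_le L b, hb, R.Fb_ncard hL b⟩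

theorem Rot.connected_iff (R : Rot n) [NeZero n] (L : ℕ) (b : Fin n → Bool) :
    (R.Fb L b).Connected ↔ ∀ f : Fin n × Fin 8 → Bool, (∀ x, f (R.om x) = f x) →
      (∀ s c, f (s, mu (b s) c) = f (s, c)) → ∀ x y, f x = f y := by
  rw [connected_iff_invariant]
  constructor
  · intro h f h1 h2 x y
    refine h (fun v => f v.1) ?_ (x, 0) (y, 0)
    rintro u v (⟨h3, h4⟩ | ⟨h3, h4⟩ | ⟨h3, h4⟩)
    · simp only [h3]
    · simp only [h3, h1]
    · simp only [h3, h2]
  · intro h f hf
    have hlev : ∀ (x : Fin n × Fin 8) (p : ℕ) (hp : p < L + 1), f (x, ⟨p, hp⟩) = f (x, 0) := by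
      intro x p
      induction p with
      | zero => intro hp; rfl
      | succ p ih =>
        intro hp
        rw [← ih (by omega)]
        exact (hf (x, ⟨p, by omega⟩) (x, ⟨p + 1, hp⟩) (Or.inl ⟨rfl, Or.inl rfl⟩)).symm
    have key := h (fun x => f (x, 0)) (fun x => by
      change f (R.om x, 0) = f (x, 0)
      rw [← hlev x L (by omega), ← hlev (R.om x) L (by omega)]
      exact (hf _ _ (Or.inr (Or.inl ⟨rfl, rfl, rfl⟩))).symm) (fun s c =>
        (hf _ _ (Or.inr (Or.inr ⟨rfl, rfl, rfl⟩))).symm)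
    rintro ⟨x, p, hp⟩ ⟨y, q, hq⟩
    rw [hlev x p hp, hlev y q hq]
    exact key x y

/-- The blocks (the places with the same value of `lab`) are the cycles of `M`, and they are
intervals traversed in increasing order. -/
structure Rot.Good (R : Rot n) (lab : Fin n → ℕ) : Prop where
  N_conn : ∀ x y, ∃ k : ℕ, (R.N ^ k) x = y
  N_val : ∀ x, (R.N x).val = if x.val + 1 < n then x.val + 1 else 0
  lab_M : ∀ x, lab (R.M x) = lab x
  M_conn : ∀ x y, lab x = lab y → ∃ k : ℕ, (R.M ^ k) x = y
  cons : ∀ p q, p < q → lab p = lab q → ∀ x, (p ≤ x ∧ x < q) ↔ (p < R.M x ∧ R.M x ≤ q)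

theorem perm_inv_of_imp {α : Type*} [Finite α] (K : Equiv.Perm α) (P : α → Prop)
    (h : ∀ x, P x → P (K x)) (x : α) : P (K x) ↔ P x := by
  constructor
  · intro hx
    have h1 : ∀ k : ℕ, P ((K ^ k) (K x)) := by
      intro k
      induction k with
      | zero => exact hx
      | succ k ih => rw [pow_succ', Equiv.Perm.mul_apply]; exact h _ ih
    have hpos : 0 < orderOf K := orderOf_pos K
    have h2 := h1 (orderOf K - 1)
    rw [← Equiv.Perm.mul_apply, ← pow_succ, Nat.sub_add_cancel hpos, pow_orderOf_eq_one] at h2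
    exact h2
  · exact h x

section Nec

variable [NeZero n] (R : Rot n) {lab : Fin n → ℕ} (hR : R.Good lab) (b : Fin n → Bool)
  (hc : ∀ f : Fin n × Fin 8 → Bool, (∀ x, f (R.om x) = f x) →
      (∀ s c, f (s, mu (b s) c) = f (s, c)) → ∀ x y, f x = f y)

include hc

omit [NeZero n] in
theorem Rot.nec_K (x : Fin n) : b (R.K x) = b x := by
  have h1 : ∀ x, b x = false → b (R.K x) = false := by
    intro s hs
    by_contra hKs
    have hKs : b (R.K s) = true := by simpa using hKs
    have hne : s ≠ R.K s := by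
      intro h; rw [← h, hs] at hKs; exact absurd hKs (by decide)
    have := hc (fun x => decide ((x.1 = s ∧ (x.2 = 0 ∨ x.2 = 1)) ∨
      (x.1 = R.K s ∧ (x.2 = 3 ∨ x.2 = 4)))) ?_ ?_ (s, 0) (s, 2)
    · simp at this
    · rintro ⟨x, c⟩
      have e1 : R.K.symm x = s ↔ x = R.K s := by
        rw [Equiv.symm_apply_eq]
      fin_cases c <;> simp [Rot.om, e1]
    · intro x c
      by_cases hx : x = s
      · subst hx
        rw [hs]
        revert c
        simp only [hne, true_and, false_and, or_false]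
        decide
      · by_cases hx' : x = R.K s
        · subst hx'
          rw [hKs]
          revert c
          simp only [hx, true_and, false_and, false_or]
          decide
        · simp [hx, hx']
  have := perm_inv_of_imp R.K (fun x => b x = false) h1 x
  cases hb : b x
  · exact this.2 hb
  · cases hb' : b (R.K x)
    · rw [this.1 hb'] at hb; exact absurd hb (by decide)
    · rfl

include hR

omit [NeZero n] in
theorem Rot.nec_exists (x : Fin n) : ∃ y, lab y = lab x ∧ b y = true := by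
  by_contra hcon
  push Not at hcon
  have hb : ∀ y, lab y = lab x → b y = false := fun y hy => by simpa using hcon y hy
  have := hc (fun y => decide (lab y.1 = lab x ∧ (y.2 = 6 ∨ y.2 = 7))) ?_ ?_ (x, 6) (x, 5)
  · simp at this
  · rintro ⟨y, c⟩
    have e1 : lab (R.M.symm y) = lab y := by
      conv_rhs => rw [← R.M.apply_symm_apply y, hR.lab_M]
    fin_cases c <;> simp [Rot.om, e1, hR.lab_M]
  · intro y c
    by_cases hy : lab y = lab x
    · rw [hb y hy]
      simp only [hy, true_and]
      revert c; decide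
    · simp [hy]

theorem Rot.nec_unique (p q : Fin n) (hpq : p < q) (hl : lab p = lab q) (hp : b p = true)
    (hq : b q = true) : False := by
  have hK := R.nec_K b hc
  have hK' : ∀ x, b (R.K.symm x) = b x := fun x => by
    conv_rhs => rw [← R.K.apply_symm_apply x, hK]
  -- left and right labels
  set Lf : Fin n → Bool := fun x => decide (p < x ∧ x ≤ q) with hLf
  set Rt : Fin n → Bool := fun x => decide (p ≤ x ∧ x < q) with hRt
  set Ti : Fin n → Bool := fun x => if b x then Lf (R.K.symm x) else Lf x with hTi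
  have eN : ∀ x, Rt x = Lf (R.N x) := by
    intro x
    have h1 := hR.N_val x
    simp only [hLf, hRt, decide_eq_decide, Fin.lt_def, Fin.le_def]
    rw [h1]
    have h2 := x.isLt
    have h3 := q.isLt
    split_ifs <;> omega
  have eM : ∀ x, Rt x = Lf (R.M x) := by
    intro x
    simp only [hLf, hRt, decide_eq_decide]
    exact hR.cons p q hpq hl x
  have eF : ∀ x, b x = false → Lf x = Rt x := by
    intro x hx
    have h1 : x ≠ p := by rintro rfl; rw [hp] at hx; exact absurd hx (by decide)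
    have h2 : x ≠ q := by rintro rfl; rw [hq] at hx; exact absurd hx (by decide)
    simp only [hLf, hRt, decide_eq_decide, Fin.lt_def, Fin.le_def]
    have h3 : x.val ≠ p.val := fun h => h1 (Fin.ext h)
    have h4 : x.val ≠ q.val := fun h => h2 (Fin.ext h)
    omega
  have := hc (fun x => if x.2 = 2 ∨ x.2 = 7 then Lf x.1 else if x.2 = 5 ∨ x.2 = 6 then Rt x.1
    else if x.2 = 3 ∨ x.2 = 4 then Ti x.1 else Ti (R.K x.1)) ?_ ?_ (p, 2) (p, 5)
  · simp [hLf, hRt, hpq] at this
  · rintro ⟨y, c⟩
    have e1 : Lf y = Rt (R.N.symm y) := by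
      rw [eN, Equiv.apply_symm_apply]
    have e2 : Lf y = Rt (R.M.symm y) := by
      rw [eM, Equiv.apply_symm_apply]
    fin_cases c
    · simp [Rot.om]
    · simp [Rot.om]
    · simp [Rot.om, ← e1]
    · simp [Rot.om]
    · simp [Rot.om]
    · simp [Rot.om, eN]
    · simp [Rot.om, eM]
    · simp [Rot.om, ← e2]
  · intro x c
    cases hx : b x
    · have e1 := eF x hx
      have e2 : Ti x = Lf x := by simp [hTi, hx]
      fin_cases c <;> simp [mu, ← e1, e2]
    · have e2 : Ti (R.K x) = Lf x := by simp [hTi, hx, hK]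
      fin_cases c <;> simp [mu, e2, show (-1 : Fin 8) = 7 from rfl]

end Nec

section Suf

variable [NeZero n] (R : Rot n) {lab : Fin n → ℕ} (hR : R.Good lab) (b : Fin n → Bool)
  (hK : ∀ x, b (R.K x) = b x) (hb : ∀ x, ∃! y, lab y = lab x ∧ b y = true)

include hR hK hb

theorem Rot.suf (f : Fin n × Fin 8 → Bool) (h1 : ∀ x, f (R.om x) = f x)
    (h2 : ∀ s c, f (s, mu (b s) c) = f (s, c)) : ∃ t, ∀ x, f x = t := by
  have hK' : ∀ x, b (R.K.symm x) = b x := fun x => by
    conv_rhs => rw [← R.K.apply_symm_apply x, hK]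
  have o0 : ∀ x, f (R.K x, 3) = f (x, 0) := fun x => h1 (x, 0)
  have o1 : ∀ x, f (R.K x, 4) = f (x, 1) := fun x => h1 (x, 1)
  have o5 : ∀ x, f (R.N x, 2) = f (x, 5) := fun x => h1 (x, 5)
  have o6 : ∀ x, f (R.M x, 7) = f (x, 6) := fun x => h1 (x, 6)
  have f0 : ∀ x, b x = false → f (x, 1) = f (x, 0) := fun x hx => by
    have := h2 x 0; rw [hx] at this; exact this
  have f2 : ∀ x, b x = false → f (x, 3) = f (x, 2) := fun x hx => by
    have := h2 x 2; rw [hx] at this; exact this
  have f4 : ∀ x, b x = false → f (x, 5) = f (x, 4) := fun x hx => by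
    have := h2 x 4; rw [hx] at this; exact this
  have f6 : ∀ x, b x = false → f (x, 7) = f (x, 6) := fun x hx => by
    have := h2 x 6; rw [hx] at this; exact this
  have t1 : ∀ x, b x = true → f (x, 2) = f (x, 1) := fun x hx => by
    have := h2 x 1; rw [hx] at this; exact this
  have t3 : ∀ x, b x = true → f (x, 4) = f (x, 3) := fun x hx => by
    have := h2 x 3; rw [hx] at this; exact this
  have t5 : ∀ x, b x = true → f (x, 6) = f (x, 5) := fun x hx => by
    have := h2 x 5; rw [hx] at this; exact this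
  have t7 : ∀ x, b x = true → f (x, 0) = f (x, 7) := fun x hx => by
    have := h2 x 7; rw [hx] at this; exact this
  have q3 : ∀ x, f (x, 3) = f (R.K.symm x, 0) := fun x => by
    rw [← o0, Equiv.apply_symm_apply]
  have q4 : ∀ x, f (x, 4) = f (R.K.symm x, 1) := fun x => by
    rw [← o1, Equiv.apply_symm_apply]
  -- straight
  have s1 : ∀ x, b x = false → f (x, 2) = f (x, 5) := by
    intro x hx
    rw [f4 x hx, ← f2 x hx, q3, q4, f0 _ ((hK' x).trans hx)]
  -- merged
  have m1 : ∀ x, b x = true → f (x, 2) = f (x, 7) := by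
    intro x hx
    rw [t1 x hx, ← o1, t3 _ ((hK x).trans hx), o0, t7 x hx]
  -- around the block of a merging place
  have ar : ∀ x, b x = true → ∀ i : ℕ, f ((R.M ^ (i + 1)) x, 7) = f (x, 6) := by
    intro x hx i
    induction i with
    | zero => simpa using o6 x
    | succ i ih =>
      rw [pow_succ', Equiv.Perm.mul_apply, o6]
      by_cases hxx : (R.M ^ (i + 1)) x = x
      · rw [hxx]
      · have hl : ∀ k : ℕ, lab ((R.M ^ k) x) = lab x := by
          intro k
          induction k with
          | zero => rfl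
          | succ k ih => rw [pow_succ', Equiv.Perm.mul_apply, hR.lab_M, ih]
        have hbf : b ((R.M ^ (i + 1)) x) = false := by
          by_contra hcon
          have hcon : b ((R.M ^ (i + 1)) x) = true := by simpa using hcon
          exact hxx ((hb x).unique ⟨hl _, hcon⟩ ⟨rfl, hx⟩)
        rw [← f6 _ hbf, ih]
  have ar' : ∀ x, b x = true → f (x, 7) = f (x, 6) := by
    intro x hx
    have hpos : 0 < orderOf R.M := orderOf_pos R.M
    have := ar x hx (orderOf R.M - 1)
    rw [Nat.sub_add_cancel hpos, pow_orderOf_eq_one] at this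
    exact this
  have s2 : ∀ x, f (x, 5) = f (x, 2) := by
    intro x
    cases hx : b x
    · exact (s1 x hx).symm
    · rw [m1 x hx, ar' x hx, t5 x hx]
  have s3 : ∀ x (k : ℕ), f ((R.N ^ k) x, 2) = f (x, 2) := by
    intro x k
    induction k with
    | zero => rfl
    | succ k ih => rw [pow_succ', Equiv.Perm.mul_apply, o5, s2, ih]
  have c2 : ∀ x, f (x, 2) = f (0, 2) := by
    intro x
    obtain ⟨k, hk⟩ := hR.N_conn 0 x
    rw [← hk, s3]
  have c5 : ∀ x, f (x, 5) = f (0, 2) := fun x => (s2 x).trans (c2 x)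
  have c7 : ∀ x, f (x, 7) = f (0, 2) := by
    intro x
    obtain ⟨m, ⟨hml, hmb⟩, _⟩ := hb x
    obtain ⟨k, hk⟩ := hR.M_conn m x hml
    rw [← hk]
    cases k with
    | zero => simp only [pow_zero, Equiv.Perm.coe_one, id_eq]; rw [← m1 m hmb, c2]
    | succ k => rw [ar m hmb k, t5 m hmb, c5]
  have c6 : ∀ x, f (x, 6) = f (0, 2) := fun x => by rw [← o6, c7]
  have c0 : ∀ x, f (x, 0) = f (0, 2) := by
    intro x
    cases hx : b x
    · rw [← o0, f2 _ ((hK x).trans hx), c2]
    · rw [t7 x hx, c7]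
  have c1 : ∀ x, f (x, 1) = f (0, 2) := by
    intro x
    cases hx : b x
    · rw [f0 x hx, c0]
    · rw [← t1 x hx, c2]
  have c3 : ∀ x, f (x, 3) = f (0, 2) := fun x => by rw [q3, c0]
  have c4 : ∀ x, f (x, 4) = f (0, 2) := fun x => by rw [q4, c1]
  refine ⟨f (0, 2), ?_⟩
  rintro ⟨x, c⟩
  match c with
  | 0 => exact c0 x
  | 1 => exact c1 x
  | 2 => exact c2 x
  | 3 => exact c3 x
  | 4 => exact c4 x
  | 5 => exact c5 x
  | 6 => exact c6 x
  | 7 => exact c7 x

end Suf

/-- The graph has a Hamiltonian cycle iff exactly one place of every block can be made true, by an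
assignment that respects the variables. -/
theorem Rot.main [NeZero n] (R : Rot n) {lab : Fin n → ℕ} (hR : R.Good lab) {L : ℕ}
    (hL : 1 ≤ L) : HasHamCycle (R.G L) ↔
      ∃ b : Fin n → Bool, (∀ x, b (R.K x) = b x) ∧ ∀ x, ∃! y, lab y = lab x ∧ b y = true := by
  rw [R.hasHamCycle_iff hL]
  constructor
  · rintro ⟨b, hb⟩
    rw [R.connected_iff] at hb
    refine ⟨b, R.nec_K b hb, fun x => ?_⟩
    obtain ⟨y, hy1, hy2⟩ := R.nec_exists hR b hb x
    refine ⟨y, ⟨hy1, hy2⟩, ?_⟩
    rintro z ⟨hz1, hz2⟩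
    rcases lt_trichotomy y z with h | h | h
    · exact (R.nec_unique hR b hb y z h (hy1.trans hz1.symm) hy2 hz2).elim
    · exact h.symm
    · exact (R.nec_unique hR b hb z y h (hz1.trans hy1.symm) hz2 hy2).elim
  · rintro ⟨b, hK, hb⟩
    refine ⟨b, ?_⟩
    rw [R.connected_iff]
    intro f h1 h2 x y
    obtain ⟨t, ht⟩ := R.suf hR b hK hb f h1 h2
    rw [ht, ht]

end H428R2
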