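import Pool.Agent.H428R2.Enc
import Pool.Agent.NPC.Sat

/-!
# Exact-one satisfiability of lists of blocks, as a Hamiltonian cycle problem
-/

namespace Pool.Agent.NPC.HJ

open SimpleGraph H428R2

section

variable {W : Type}

/-- The places of a list of blocks: pairs (number of the block, variable). -/
def pl (k : ℕ) (bs : List (List W)) : List (ℕ × W) :=
  (bs.zipIdx k).flatMap fun p => p.1.map fun w => (p.2, w)

theorem pl_cons (k : ℕ) (B : List W) (bs : List (List W)) :
    pl k (B :: bs) = B.map (fun w => (k, w)) ++ pl (k + 1) bs := by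
  simp [pl, List.zipIdx_cons]

theorem le_of_mem_pl : ∀ (bs : List (List W)) (k : ℕ) (p : ℕ × W), p ∈ pl k bs → k ≤ p.1
  | [], k, p, h => by simp [pl] at h
  | B :: bs, k, p, h => by
    rw [pl_cons, List.mem_append] at h
    rcases h with h | h
    · simp only [List.mem_map] at h
      obtain ⟨w, _, rfl⟩ := h
      exact le_rfl
    · have := le_of_mem_pl bs (k + 1) p h
      omega

theorem pl_sorted : ∀ (bs : List (List W)) (k : ℕ),
    (pl k bs).Pairwise (fun p q => p.1 ≤ q.1)
  | [], k => by simp [pl]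
  | B :: bs, k => by
    rw [pl_cons, List.pairwise_append]
    refine ⟨?_, pl_sorted bs (k + 1), ?_⟩
    · rw [List.pairwise_map]
      exact List.pairwise_iff_getElem.2 (fun _ _ _ _ _ => le_rfl)
    · intro p hp q hq
      simp only [List.mem_map] at hp
      obtain ⟨w, _, rfl⟩ := hp
      have := le_of_mem_pl bs (k + 1) q hq
      simp only
      omega

/-- In every block that occurs, exactly one place is true. -/
def EO (τ : W → Bool) (l : List (ℕ × W)) : Prop :=
  ∀ p ∈ l, l.countP (fun q => decide (q.1 = p.1 ∧ τ q.2 = true)) = 1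

theorem EO_append (τ : W → Bool) (l₁ l₂ : List (ℕ × W))
    (h : ∀ p ∈ l₁, ∀ q ∈ l₂, p.1 ≠ q.1) : EO τ (l₁ ++ l₂) ↔ EO τ l₁ ∧ EO τ l₂ := by
  have h1 : ∀ p ∈ l₁, l₂.countP (fun q => decide (q.1 = p.1 ∧ τ q.2 = true)) = 0 := by
    intro p hp
    rw [List.countP_eq_zero]
    intro q hq
    simp only [decide_eq_true_eq, not_and]
    intro hqp
    exact absurd hqp.symm (h p hp q hq)
  have h2 : ∀ p ∈ l₂, l₁.countP (fun q => decide (q.1 = p.1 ∧ τ q.2 = true)) = 0 := by
    intro p hp
    rw [List.countP_eq_zero]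
    intro q hq
    simp only [decide_eq_true_eq, not_and]
    intro hqp
    exact absurd hqp (h q hq p hp)
  unfold EO
  constructor
  · intro hE
    refine ⟨fun p hp => ?_, fun p hp => ?_⟩
    · have := hE p (List.mem_append_left _ hp)
      rw [List.countP_append, h1 p hp] at this
      exact this
    · have := hE p (List.mem_append_right _ hp)
      rw [List.countP_append, h2 p hp, Nat.zero_add] at this
      exact this
  · rintro ⟨hE1, hE2⟩ p hp
    rw [List.countP_append]
    rcases List.mem_append.1 hp with hp | hp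
    · rw [h1 p hp, hE1 p hp]
    · rw [h2 p hp, hE2 p hp]

theorem EO_block (τ : W → Bool) (k : ℕ) (B : List W) :
    EO τ (B.map fun w => (k, w)) ↔ B = [] ∨ B.countP τ = 1 := by
  unfold EO
  have hc : (B.map fun w => (k, w)).countP (fun q => decide (q.1 = k ∧ τ q.2 = true)) =
      B.countP τ := by
    rw [List.countP_map]
    congr 1
    funext w
    simp
  constructor
  · intro h
    cases B with
    | nil => exact Or.inl rfl
    | cons w B =>
      right
      have := h (k, w) (by simp)
      simp only at this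
      rw [hc] at this
      exact this
  · rintro (rfl | h) p hp
    · simp at hp
    · simp only [List.mem_map] at hp
      obtain ⟨w, _, rfl⟩ := hp
      simp only
      rw [hc, h]

theorem EO_pl (τ : W → Bool) : ∀ (bs : List (List W)) (k : ℕ),
    EO τ (pl k bs) ↔ ∀ B ∈ bs, B = [] ∨ B.countP τ = 1
  | [], k => by simp [pl, EO]
  | B :: bs, k => by
    rw [pl_cons, EO_append, EO_block, EO_pl τ bs (k + 1), List.forall_mem_cons]
    intro p hp q hq
    simp only [List.mem_map] at hp
    obtain ⟨w, _, rfl⟩ := hp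
    have := le_of_mem_pl bs (k + 1) q hq
    simp only
    omega

theorem card_filter_getD {β : Type*} (P : β → Bool) (d : β) : ∀ l : List β,
    (Finset.univ.filter fun y : Fin l.length => P (l.getD y.val d) = true).card = l.countP P
  | [] => by simp
  | a :: l => by
    have ih := card_filter_getD P d l
    have h := Fin.card_filter_univ_succ
      (fun y : Fin (l.length + 1) => P ((a :: l).getD y.val d) = true)
    have h2 : (Finset.univ.filter fun y : Fin (a :: l).length =>
        P ((a :: l).getD y.val d) = true).card = (Finset.univ.filter fun y : Fin (l.length + 1) =>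
        P ((a :: l).getD y.val d) = true).card := rfl
    rw [h2, h, List.countP_cons]
    simp only [Fin.val_zero, List.getD_cons_zero, Fin.val_succ, List.getD_cons_succ]
    rw [ih]
    split_ifs <;> rfl

theorem existsUnique_iff_countP {β : Type*} (P : β → Bool) (d : β) (l : List β) :
    (∃! y : Fin l.length, P (l.getD y.val d) = true) ↔ l.countP P = 1 := by
  rw [← card_filter_getD P d l]
  exact Fintype.existsUnique_iff_card_one _

/-- The places and the exact-one condition, in terms of positions. -/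
theorem EO_iff (τ : W → Bool) (l : List (ℕ × W)) (d : ℕ × W) :
    (∀ x : Fin l.length, ∃! y : Fin l.length,
      (l.getD y.val d).1 = (l.getD x.val d).1 ∧ τ (l.getD y.val d).2 = true) ↔ EO τ l := by
  have key : ∀ x : Fin l.length, (∃! y : Fin l.length,
      (l.getD y.val d).1 = (l.getD x.val d).1 ∧ τ (l.getD y.val d).2 = true) ↔
      l.countP (fun q => decide (q.1 = (l.getD x.val d).1 ∧ τ q.2 = true)) = 1 := by
    intro x
    rw [← existsUnique_iff_countP _ d]
    simp only [decide_eq_true_eq]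
  simp only [key]
  unfold EO
  constructor
  · intro h p hp
    obtain ⟨i, hi, hip⟩ := List.getElem_of_mem hp
    have := h ⟨i, hi⟩
    rw [List.getD_eq_getElem _ _ hi, hip] at this
    exact this
  · intro h x
    apply h
    rw [List.getD_eq_getElem _ _ x.isLt]
    exact List.getElem_mem _

/-- The adjacency matrix for a list of blocks. -/
def bmat [DecidableEq W] (d : W) (L : ℕ) (bs : List (List W)) : List (List Bool) :=
  mat (pl 0 bs).length (fun y => ((pl 0 bs).getD y (0, d)).1)
    (fun y => ((pl 0 bs).getD y (0, d)).2) L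

theorem pl_mono (bs : List (List W)) (d : ℕ × W) (x y : ℕ) (hxy : x ≤ y)
    (hy : y < (pl 0 bs).length) : ((pl 0 bs).getD x d).1 ≤ ((pl 0 bs).getD y d).1 := by
  rcases Nat.lt_or_eq_of_le hxy with h | h
  · have := List.pairwise_iff_getElem.1 (pl_sorted bs 0) x y (by omega) hy h
    rw [List.getD_eq_getElem _ _ (by omega), List.getD_eq_getElem _ _ hy]
    exact this
  · subst h; exact le_rfl

theorem bmat_ham [DecidableEq W] (d : W) {L : ℕ} (hL : 1 ≤ L) (bs : List (List W))
    (hne : ∃ B ∈ bs, B ≠ []) :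
    HasHamCycle (matGraph (bmat d L bs)) ↔
      ∃ τ : W → Bool, ∀ B ∈ bs, B = [] ∨ B.countP τ = 1 := by
  obtain ⟨e⟩ := exists_iso (pl 0 bs).length (fun y => ((pl 0 bs).getD y (0, d)).1)
    (fun y => ((pl 0 bs).getD y (0, d)).2) L
  have hpos : (pl 0 bs).length ≠ 0 := by
    obtain ⟨B, hB, hne⟩ := hne
    intro h
    rw [List.length_eq_zero_iff] at h
    obtain ⟨w, hw⟩ := List.exists_mem_of_ne_nil _ hne
    obtain ⟨i, hi, hiB⟩ := List.getElem_of_mem hB
    have : (i, w) ∈ pl 0 bs := by
      unfold pl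
      rw [List.mem_flatMap]
      refine ⟨(B, i), ?_, ?_⟩
      · rw [List.mem_zipIdx_iff_getElem?]
        simp only
        rw [List.getElem?_eq_getElem hi, hiB]
      · simp only [List.mem_map]
        exact ⟨w, hw, rfl⟩
    rw [h] at this
    simp at this
  have : NeZero (pl 0 bs).length := ⟨hpos⟩
  unfold bmat
  rw [← hasHamCycle_iso e, mkRot_main _ _ (fun x y hxy hy => pl_mono bs (0, d) x y hxy hy) hL]
  simp only [EO_iff _ _ (0, d), EO_pl]

theorem bmat_free [DecidableEq W] (d : W) {L j : ℕ} (hj : 6 ≤ j) (hL : j ≤ L)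
    (bs : List (List W)) : (treeH j).Free (matGraph (bmat d L bs)) := by
  obtain ⟨e⟩ := exists_iso (pl 0 bs).length (fun y => ((pl 0 bs).getD y (0, d)).1)
    (fun y => ((pl 0 bs).getD y (0, d)).2) L
  intro h
  refine Rot.free (mkRot _ _ _) hj hL (h.trans ⟨e.symm.toCopy⟩)

end

section Poly

variable {α β : Type} [TEnc α] [TEnc β] [DecidableEq β]

theorem poly_nxt {n : α → ℕ} {κ : α → ℕ → β} {x : α → ℕ} (hn : UPoly n)
    (hκ : Poly (fun p : α × ℕ => κ p.1 p.2)) (hx : Poly x) :
    Poly (fun a => nxt (n a) (κ a) (x a)) := by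
  have h1 : Poly (fun p : α × ℕ => (x p.1 + 1 + p.2) % n p.1) :=
    Poly.mod (Poly.add (Poly.succ (hx.comp (Poly.fst Poly.id))) (Poly.snd Poly.id))
      (hn.toPoly.comp (Poly.fst Poly.id))
  refine (Poly.optCases (g := fun _ => 0) (h := fun a d => (x a + 1 + d) % n a)
    (Poly.head? (Poly.filter (p := fun a d => decide (κ a ((x a + 1 + d) % n a) = κ a (x a)))
      (UPoly.range hn) ?_)) (Poly.const 0) h1).congr fun a => ?_
  · exact Poly.decide_eq (hκ.comp (Poly.pair (Poly.fst Poly.id) h1))
      (hκ.comp (Poly.pair (Poly.fst Poly.id) (hx.comp (Poly.fst Poly.id))))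
  · unfold nxt
    cases (List.filter (fun d => decide (κ a ((x a + 1 + d) % n a) = κ a (x a)))
      (List.range (n a))).head? <;> rfl

theorem poly_wt {n : α → ℕ} {lab : α → ℕ → ℕ} {var : α → ℕ → β} {u v : α → ℕ} (hn : UPoly n)
    (hlab : Poly (fun p : α × ℕ => lab p.1 p.2)) (hvar : Poly (fun p : α × ℕ => var p.1 p.2))
    (hu : Poly u) (hv : Poly v) : Poly (fun a => wt (n a) (lab a) (var a) (u a) (v a)) := by
  have hm : ∀ k : ℕ, Poly (fun a => decide (u a % 8 = k)) := fun k =>
    Poly.decide_eq (Poly.mod hu (Poly.const 8)) (Poly.const k)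
  have hq : Poly (fun a => u a / 8) := Poly.div hu (Poly.const 8)
  have hv' : ∀ (k : ℕ) {f : α → ℕ}, Poly f → Poly (fun a => decide (v a = k + 8 * f a)) :=
    fun k f hf => Poly.decide_eq hv (Poly.add (Poly.const k) (Poly.mul (Poly.const 8) hf))
  exact Poly.or (Poly.and (hm 0) (hv' 3 (poly_nxt hn hvar hq)))
    (Poly.or (Poly.and (hm 1) (hv' 4 (poly_nxt hn hvar hq)))
    (Poly.or (Poly.and (hm 5) (hv' 2 (poly_nxt (κ := fun _ _ => (0 : ℕ)) hn (Poly.const 0) hq)))
      (Poly.and (hm 6) (hv' 7 (poly_nxt hn hlab hq)))))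

theorem poly_edg {n : α → ℕ} {lab : α → ℕ → ℕ} {var : α → ℕ → β} {i j : α → ℕ} (L : ℕ)
    (hn : UPoly n)
    (hlab : Poly (fun p : α × ℕ => lab p.1 p.2)) (hvar : Poly (fun p : α × ℕ => var p.1 p.2))
    (hi : Poly i) (hj : Poly j) : Poly (fun a => edg (n a) (lab a) (var a) L (i a) (j a)) := by
  have di : Poly (fun a => i a / (L + 1)) := Poly.div hi (Poly.const _)
  have dj : Poly (fun a => j a / (L + 1)) := Poly.div hj (Poly.const _)
  have mi : Poly (fun a => i a % (L + 1)) := Poly.mod hi (Poly.const _)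
  have mj : Poly (fun a => j a % (L + 1)) := Poly.mod hj (Poly.const _)
  have c8 : Poly (fun _ : α => 8) := Poly.const 8
  refine Poly.or (Poly.and (Poly.decide_eq di dj) (Poly.decide_eq (Poly.succ mi) mj))
    (Poly.or (Poly.and (poly_wt hn hlab hvar di dj)
      (Poly.and (Poly.decide_eq mi (Poly.const L)) (Poly.decide_eq mj (Poly.const L)))) ?_)
  exact Poly.and (Poly.decide_eq (Poly.div di c8) (Poly.div dj c8))
    (Poly.and (Poly.decide_eq (Poly.mod (Poly.succ (Poly.mod di c8)) c8) (Poly.mod dj c8))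
    (Poly.and (Poly.decide_eq mi (Poly.const 0)) (Poly.decide_eq mj (Poly.const 0))))

theorem poly_mat {n : α → ℕ} {lab : α → ℕ → ℕ} {var : α → ℕ → β} (L : ℕ) (hn : UPoly n)
    (hlab : Poly (fun p : α × ℕ => lab p.1 p.2)) (hvar : Poly (fun p : α × ℕ => var p.1 p.2)) :
    Poly (fun a => mat (n a) (lab a) (var a) L) := by
  have hN : UPoly (fun a => n a * 8 * (L + 1)) :=
    UPoly.mul (UPoly.mul hn (UPoly.const 8)) (UPoly.const (L + 1))
  refine Poly.map (F := fun a i => (List.range (n a * 8 * (L + 1))).map fun j =>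
    edg (n a) (lab a) (var a) L i j) (UPoly.range hN) ?_
  refine Poly.map (F := fun (p : α × ℕ) j => edg (n p.1) (lab p.1) (var p.1) L p.2 j)
    ((UPoly.range hN).comp (Poly.fst Poly.id)) ?_
  exact poly_edg (n := fun q : (α × ℕ) × ℕ => n q.1.1) (lab := fun q => lab q.1.1)
    (var := fun q => var q.1.1) L (hn.comp (Poly.fst (Poly.fst Poly.id)))
    (hlab.comp (Poly.pair (Poly.fst (Poly.fst (Poly.fst Poly.id))) (Poly.snd Poly.id)))
    (hvar.comp (Poly.pair (Poly.fst (Poly.fst (Poly.fst Poly.id))) (Poly.snd Poly.id)))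
    (Poly.snd (Poly.fst Poly.id)) (Poly.snd Poly.id)

omit [DecidableEq β] in
theorem poly_pl {bs : α → List (List β)} (k : ℕ) (hbs : Poly bs) (hk : k = 0) :
    Poly (fun a => pl k (bs a)) := by
  subst hk
  refine Poly.flatMap (F := fun _ (p : List β × ℕ) => p.1.map fun w => (p.2, w))
    (Poly.zipIdx hbs) ?_
  exact Poly.map (F := fun (q : α × (List β × ℕ)) w => (q.2.2, w))
    (Poly.fst (Poly.snd Poly.id))
    (Poly.pair (Poly.snd (Poly.snd (Poly.fst Poly.id))) (Poly.snd Poly.id))

theorem poly_bmat (d : β) (L : ℕ) {bs : α → List (List β)} (hbs : Poly bs) :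
    Poly (fun a => bmat d L (bs a)) := by
  have hp : Poly (fun a => pl 0 (bs a)) := poly_pl 0 hbs rfl
  have hg : Poly (fun p : α × ℕ => (pl 0 (bs p.1)).getD p.2 (0, d)) :=
    Poly.getD (hp.comp (Poly.fst Poly.id)) (Poly.snd Poly.id) (Poly.const _)
  exact poly_mat L (UPoly.length hp) (Poly.fst hg) (Poly.snd hg)

end Poly

end Pool.Agent.NPC.HJ
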