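import Pool.Agent.NPC.Dec

/-!
# NP-completeness of a decision problem restricted to a class of inputs
-/

namespace Pool.Agent.NPC.HJ

/-- The decision problem `P`, restricted to the inputs in the class `C`, is NP-complete: the class
`C` is recognisable in polynomial time, the restricted problem is in NP, and every language in NP
has a polynomial-time many-one reduction to `P` all of whose values are in the class `C`. -/
structure NPCompleteOn {α : Type} [TEnc α] (C P : α → Prop) : Prop where
  class_inP : InPP C
  inNP : InNPP (fun a => C a ∧ P a)
  hard : ∀ L : Set (List Bool), InNP L → ∃ f : List Bool → α,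
    PolyTime (fun x => bits (f x)) ∧ (∀ x, C (f x)) ∧ ∀ x, x ∈ L ↔ P (f x)

/-- The restricted problem is an NP-hard language. -/
theorem NPCompleteOn.npHard {α : Type} [TEnc α] {C P : α → Prop} (h : NPCompleteOn C P) :
    NPHardP (fun a => C a ∧ P a) := by
  intro L hL
  obtain ⟨f, hf, hC, hP⟩ := h.hard L hL
  refine ⟨fun x => bits (f x), hf, fun x => ?_⟩
  rw [hP x]
  constructor
  · intro h
    exact ⟨f x, rfl, hC x, h⟩
  · rintro ⟨a, ha, _, hPa⟩
    rw [bits_injective ha] at hPa
    exact hPa

end Pool.Agent.NPC.HJ
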