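import Pool.Agent.H428R2.Abs

/-!
# The trees `H_j`, and the graphs of `Abs` are `H_j`-subgraph-free for `6 ≤ j ≤ L`
-/

namespace H428R2

open SimpleGraph

/-- The tree `H_j`: the path `0, 1, …, j` with two pendant vertices `j+1`, `j+2` at `0` and two
pendant vertices `j+3`, `j+4` at `j`. -/
def treeH (j : ℕ) : SimpleGraph (Fin (j + 5)) :=
  SimpleGraph.fromRel fun a b =>
    (b.val = a.val + 1 ∧ b.val ≤ j) ∨ (a.val = 0 ∧ (b.val = j + 1 ∨ b.val = j + 2)) ∨
      (a.val = j ∧ (b.val = j + 3 ∨ b.val = j + 4))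

variable {n : ℕ}

theorem Rot.nbr_sub (R : Rot n) {L : ℕ} (v : Vtx n L) (hv : v.2.val ≠ 0) :
    ∃ a b : Vtx n L, ∀ w, (R.G L).Adj v w → w = a ∨ w = b := by
  obtain ⟨x, p, hp⟩ := v
  simp only at hv
  by_cases h1 : p = L
  · subst h1
    refine ⟨(x, ⟨p - 1, by omega⟩), (R.om x, ⟨p, by omega⟩), ?_⟩
    rintro ⟨y, q, hq⟩
    simp only [Rot.G, Prod.mk.injEq, Fin.mk.injEq]
    rintro (⟨h1, h2⟩ | ⟨h1, h2, h3⟩ | ⟨h1, h2, h3, h4⟩)
    · left; exact ⟨h1.symm, by omega⟩
    · right; exact ⟨h1, h3⟩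
    · omega
  · refine ⟨(x, ⟨p - 1, by omega⟩), (x, ⟨p + 1, by omega⟩), ?_⟩
    rintro ⟨y, q, hq⟩
    simp only [Rot.G, Prod.mk.injEq, Fin.mk.injEq]
    rintro (⟨h1, h2⟩ | ⟨h1, h2, h3⟩ | ⟨h1, h2, h3, h4⟩)
    · by_cases hq : q + 1 = p
      · left; exact ⟨h1.symm, by omega⟩
      · right; exact ⟨h1.symm, by omega⟩
    · omega
    · omega

theorem Rot.level_zero (R : Rot n) {L : ℕ} {v a b c : Vtx n L} (ha : (R.G L).Adj v a)
    (hb : (R.G L).Adj v b) (hc : (R.G L).Adj v c) (hab : a ≠ b) (hac : a ≠ c) (hbc : b ≠ c) :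
    v.2.val = 0 := by
  by_contra hv
  obtain ⟨x, y, hxy⟩ := R.nbr_sub v hv
  rcases hxy a ha with h1 | h1 <;> rcases hxy b hb with h2 | h2 <;>
    rcases hxy c hc with h3 | h3
  · exact hab (h1.trans h2.symm)
  · exact hab (h1.trans h2.symm)
  · exact hac (h1.trans h3.symm)
  · exact hbc (h2.trans h3.symm)
  · exact hbc (h2.trans h3.symm)
  · exact hac (h1.trans h3.symm)
  · exact hab (h1.trans h2.symm)
  · exact hab (h1.trans h2.symm)

/-- A neighbour of a level-zero vertex is in the same 8-cycle, or is the next vertex of the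
wire. -/
theorem Rot.adj_of_zero (R : Rot n) {L : ℕ} (hL : 1 ≤ L) {v w : Vtx n L} (hv : v.2.val = 0)
    (h : (R.G L).Adj v w) : (w.2.val = 0 ∧ w.1.1 = v.1.1) ∨ (w.1 = v.1 ∧ w.2.val = 1) := by
  rcases h with ⟨h1, h2⟩ | ⟨h1, h2, h3⟩ | ⟨h1, h2, h3, h4⟩
  · right; exact ⟨h1.symm, by omega⟩
  · omega
  · left; exact ⟨h4, h1.symm⟩

/-- A path that enters a wire stays in it. -/
theorem Rot.stay (R : Rot n) {L j : ℕ} (hLj : j ≤ L) (f : ℕ → Vtx n L)
    (hadj : ∀ i < j, (R.G L).Adj (f i) (f (i + 1)))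
    (hinj : ∀ i ≤ j, ∀ k ≤ j, f i = f k → i = k) (i : ℕ) (h0 : (f i).2.val = 0)
    (h1 : (f (i + 1)).1 = (f i).1) (h2 : (f (i + 1)).2.val = 1) (k : ℕ) (hk : i + k + 1 ≤ j) :
    (f (i + k)).1 = (f i).1 ∧ (f (i + k)).2.val = k ∧ (f (i + k + 1)).1 = (f i).1 ∧
      (f (i + k + 1)).2.val = k + 1 := by
  induction k with
  | zero => exact ⟨rfl, h0, h1, h2⟩
  | succ k ih =>
    obtain ⟨a1, a2, a3, a4⟩ := ih (by omega)
    refine ⟨a3, a4, ?_⟩
    have h := hadj (i + k + 1) (by omega)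
    have hne : f (i + k + 1 + 1) ≠ f (i + k) := by
      intro hcon
      have := hinj _ (by omega) _ (by omega) hcon
      omega
    rw [show i + (k + 1) + 1 = i + k + 1 + 1 by omega]
    rcases h with ⟨h1, h2⟩ | ⟨h1, h2, h3⟩ | ⟨h1, h2, h3, h4⟩
    · refine ⟨h1.symm.trans a3, ?_⟩
      rcases h2 with h2 | h2
      · omega
      · exfalso
        apply hne
        refine Prod.ext (h1.symm.trans (a3.trans a1.symm)) (Fin.ext ?_)
        omega
    · omega
    · omega

theorem Rot.free (R : Rot n) {L j : ℕ} (hj : 6 ≤ j) (hLj : j ≤ L) : (treeH j).Free (R.G L) := by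
  rintro ⟨φ⟩
  have hpos : 0 < j + 5 := by omega
  set f : ℕ → Vtx n L := fun i => φ (if h : i < j + 5 then ⟨i, h⟩ else ⟨0, hpos⟩) with hf
  have hfi : ∀ (i : ℕ) (h : i < j + 5), f i = φ ⟨i, h⟩ := fun i h => by
    simp only [hf, dif_pos h]
  have hinj : ∀ i < j + 5, ∀ k < j + 5, f i = f k → i = k := by
    intro i hi k hk h
    rw [hfi i hi, hfi k hk] at h
    have := φ.injective h
    exact congrArg Fin.val this
  have hmap : ∀ (i k : ℕ) (hi : i < j + 5) (hk : k < j + 5), (treeH j).Adj ⟨i, hi⟩ ⟨k, hk⟩ →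
      (R.G L).Adj (f i) (f k) := by
    intro i k hi hk h
    rw [hfi i hi, hfi k hk]
    exact φ.toHom.map_adj h
  have hadj : ∀ i < j, (R.G L).Adj (f i) (f (i + 1)) := by
    intro i hi
    refine hmap _ _ (by omega) (by omega) ?_
    rw [treeH, SimpleGraph.fromRel_adj]
    refine ⟨fun h => ?_, Or.inl (Or.inl ⟨rfl, by simp only; omega⟩)⟩
    have := congrArg Fin.val h
    simp at this
  have hp1 : (R.G L).Adj (f 0) (f (j + 1)) := by
    refine hmap _ _ (by omega) (by omega) ?_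
    rw [treeH, SimpleGraph.fromRel_adj]
    refine ⟨fun h => ?_, Or.inl (Or.inr (Or.inl ⟨rfl, Or.inl rfl⟩))⟩
    have := congrArg Fin.val h
    simp at this
  have hp2 : (R.G L).Adj (f 0) (f (j + 2)) := by
    refine hmap _ _ (by omega) (by omega) ?_
    rw [treeH, SimpleGraph.fromRel_adj]
    refine ⟨fun h => ?_, Or.inl (Or.inr (Or.inl ⟨rfl, Or.inr rfl⟩))⟩
    have := congrArg Fin.val h
    simp at this
  have hp3 : (R.G L).Adj (f j) (f (j + 3)) := by
    refine hmap _ _ (by omega) (by omega) ?_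
    rw [treeH, SimpleGraph.fromRel_adj]
    refine ⟨fun h => ?_, Or.inl (Or.inr (Or.inr ⟨rfl, Or.inl rfl⟩))⟩
    have := congrArg Fin.val h
    simp at this
  have hp4 : (R.G L).Adj (f j) (f (j + 4)) := by
    refine hmap _ _ (by omega) (by omega) ?_
    rw [treeH, SimpleGraph.fromRel_adj]
    refine ⟨fun h => ?_, Or.inl (Or.inr (Or.inr ⟨rfl, Or.inr rfl⟩))⟩
    have := congrArg Fin.val h
    simp at this
  have hne : ∀ i < j + 5, ∀ k < j + 5, i ≠ k → f i ≠ f k := fun i hi k hk hik h =>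
    hik (hinj i hi k hk h)
  -- the ends are on 8-cycles
  have h0 : (f 0).2.val = 0 := R.level_zero (hadj 0 (by omega)) hp1 hp2
    (hne _ (by omega) _ (by omega) (by omega)) (hne _ (by omega) _ (by omega) (by omega))
    (hne _ (by omega) _ (by omega) (by omega))
  have hjm : (R.G L).Adj (f j) (f (j - 1)) := by
    have := (hadj (j - 1) (by omega)).symm
    rwa [Nat.sub_add_cancel (by omega)] at this
  have hj0 : (f j).2.val = 0 := R.level_zero hjm hp3 hp4
    (hne _ (by omega) _ (by omega) (by omega)) (hne _ (by omega) _ (by omega) (by omega))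
    (hne _ (by omega) _ (by omega) (by omega))
  -- the whole path is on one 8-cycle
  have hall : ∀ i ≤ j, (f i).2.val = 0 ∧ (f i).1.1 = (f 0).1.1 := by
    intro i
    induction i with
    | zero => intro _; exact ⟨h0, rfl⟩
    | succ i ih =>
      intro hi
      obtain ⟨a1, a2⟩ := ih (by omega)
      rcases R.adj_of_zero (by omega) a1 (hadj i (by omega)) with ⟨h3, h4⟩ | ⟨h3, h4⟩
      · exact ⟨h3, h4.trans a2⟩
      · exfalso
        have := R.stay hLj f hadj (fun i hi k hk => hinj i (by omega) k (by omega)) i a1 h3 h4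
          (j - i - 1) (by omega)
        rw [show i + (j - i - 1) + 1 = j by omega] at this
        omega
  -- one pendant vertex of each end is on the 8-cycle
  have hpend : ∀ (v a b : Vtx n L), v.2.val = 0 → (R.G L).Adj v a → (R.G L).Adj v b → a ≠ b →
      (a.2.val = 0 ∧ a.1.1 = v.1.1) ∨ (b.2.val = 0 ∧ b.1.1 = v.1.1) := by
    intro v a b hv ha hb hab
    rcases R.adj_of_zero (by omega) hv ha with h | ⟨h1, h2⟩
    · exact Or.inl h
    · rcases R.adj_of_zero (by omega) hv hb with h | ⟨h3, h4⟩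
      · exact Or.inr h
      · exact absurd (Prod.ext (h1.trans h3.symm) (Fin.ext (h2.trans h4.symm))) hab
  obtain ⟨a, ha, ha'⟩ : ∃ a, (a = j + 1 ∨ a = j + 2) ∧ ((f a).2.val = 0 ∧
      (f a).1.1 = (f 0).1.1) := by
    rcases hpend _ _ _ h0 hp1 hp2 (hne _ (by omega) _ (by omega) (by omega)) with h | h
    · exact ⟨_, Or.inl rfl, h⟩
    · exact ⟨_, Or.inr rfl, h⟩
  obtain ⟨b, hb, hb'⟩ : ∃ b, (b = j + 3 ∨ b = j + 4) ∧ ((f b).2.val = 0 ∧
      (f b).1.1 = (f 0).1.1) := by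
    rcases hpend _ _ _ hj0 hp3 hp4 (hne _ (by omega) _ (by omega) (by omega)) with h | h
    · exact ⟨_, Or.inl rfl, h.1, h.2.trans (hall j le_rfl).2⟩
    · exact ⟨_, Or.inr rfl, h.1, h.2.trans (hall j le_rfl).2⟩
  -- count
  set idx : ℕ → ℕ := fun i => if i ≤ j then i else if i = j + 1 then a else b with hidx
  have hidx_lt : ∀ i, idx i < j + 5 := by
    intro i
    simp only [hidx]
    split_ifs <;> omega
  have hidx_inj : ∀ i < j + 3, ∀ k < j + 3, idx i = idx k → i = k := by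
    intro i hi k hk h
    simp only [hidx] at h
    split_ifs at h <;> omega
  have hidx_z : ∀ i, (f (idx i)).2.val = 0 ∧ (f (idx i)).1.1 = (f 0).1.1 := by
    intro i
    simp only [hidx]
    split_ifs with h1 h2
    · exact hall i h1
    · exact ha'
    · exact hb'
  have hcard : Fintype.card (Fin (j + 3)) ≤ Fintype.card (Fin 8) := by
    refine Fintype.card_le_of_injective (fun i : Fin (j + 3) => (f (idx i.val)).1.2) ?_
    intro i k hik
    simp only at hik
    apply Fin.ext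
    apply hidx_inj _ i.isLt _ k.isLt
    apply hinj _ (hidx_lt _) _ (hidx_lt _)
    have h1 := hidx_z i.val
    have h2 := hidx_z k.val
    exact Prod.ext (Prod.ext (h1.2.trans h2.2.symm) hik) (Fin.ext (h1.1.trans h2.1.symm))
  simp only [Fintype.card_fin] at hcard
  omega

end H428R2
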