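import Pool.Agent.H428R2.Abs2

/-!
# The next occurrence of the same key, cyclically
-/

namespace H428R2

variable {α : Type} [DecidableEq α]

/-- The first position after `x`, cyclically modulo `n`, with the same key as `x`. -/
def nxt (n : ℕ) (κ : ℕ → α) (x : ℕ) : ℕ :=
  match ((List.range n).filter (fun d => decide (κ ((x + 1 + d) % n) = κ x))).head? with
  | some d => (x + 1 + d) % n
  | none => 0

theorem head?_filter_range {n : ℕ} (P : ℕ → Bool) (h : ∃ d < n, P d = true) :
    ∃ d < n, ((List.range n).filter P).head? = some d ∧ P d = true ∧ ∀ e < d, P e = false := by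
  obtain ⟨d₀, hd₀, hP₀⟩ := h
  have hex : ∃ d, d < n ∧ P d = true := ⟨d₀, hd₀, hP₀⟩
  classical
  set d := Nat.find hex with hd
  have h1 := Nat.find_spec hex
  have h2 : ∀ e < d, P e = false := by
    intro e he
    have := Nat.find_min hex he
    rw [not_and] at this
    have h3 := this (lt_trans he h1.1)
    simpa using h3
  refine ⟨d, h1.1, ?_, h1.2, h2⟩
  have h3 : List.range n = List.range d ++ (List.range (n - d)).map (d + ·) := by
    rw [← List.range_add]
    congr 1
    have := h1.1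
    omega
  rw [h3, List.filter_append]
  have h4 : (List.range d).filter P = [] := by
    rw [List.filter_eq_nil_iff]
    intro e he
    rw [List.mem_range] at he
    simp [h2 e he]
  rw [h4, List.nil_append]
  have h5 : n - d = (n - d - 1) + 1 := by
    have := h1.1
    omega
  rw [h5, List.range_succ_eq_map, List.map_cons, List.filter_cons]
  have h6 : P (d + 0) = true := h1.2
  rw [if_pos h6]
  simp

theorem nxt_spec {n : ℕ} (κ : ℕ → α) {x : ℕ} (hx : x < n) :
    ∃ d < n, nxt n κ x = (x + 1 + d) % n ∧ κ ((x + 1 + d) % n) = κ x ∧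
      ∀ e < d, κ ((x + 1 + e) % n) ≠ κ x := by
  obtain ⟨d, hd, h1, h2, h3⟩ := head?_filter_range (n := n)
    (fun d => decide (κ ((x + 1 + d) % n) = κ x)) ⟨n - 1, by omega, by
      have : (x + 1 + (n - 1)) % n = x := by
        rw [show x + 1 + (n - 1) = x + n by omega, Nat.add_mod_right, Nat.mod_eq_of_lt hx]
      simp [this]⟩
  refine ⟨d, hd, ?_, by simpa using h2, fun e he => by simpa using h3 e he⟩
  unfold nxt
  rw [h1]

theorem nxt_lt {n : ℕ} (κ : ℕ → α) {x : ℕ} (hx : x < n) : nxt n κ x < n := by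
  obtain ⟨d, _, h, _⟩ := nxt_spec κ hx
  rw [h]
  exact Nat.mod_lt _ (by omega)

theorem nxt_key {n : ℕ} (κ : ℕ → α) {x : ℕ} (hx : x < n) : κ (nxt n κ x) = κ x := by
  obtain ⟨d, _, h, h', _⟩ := nxt_spec κ hx
  rw [h, h']

omit [DecidableEq α] in
theorem nxt_inj_aux {n : ℕ} (κ : ℕ → α) {x y : ℕ} (hx : x < n) {d e : ℕ}
    (hde : d < e) (h : (x + 1 + d) % n = (y + 1 + e) % n)
    (hk1 : κ ((x + 1 + d) % n) = κ x) (hk2 : κ ((y + 1 + e) % n) = κ y)
    (hmin : ∀ i < e, κ ((y + 1 + i) % n) ≠ κ y) : False := by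
  apply hmin (e - d - 1) (by omega)
  have h1 : (y + 1 + (e - d - 1)) % n = x := by
    have h2 : (y + 1 + (e - d - 1) + (1 + d)) % n = (x + (1 + d)) % n := by
      rw [show y + 1 + (e - d - 1) + (1 + d) = y + 1 + e by omega, ← h]
      congr 1; omega
    have h3 : (y + 1 + (e - d - 1)) ≡ x [MOD n] := Nat.ModEq.add_right_cancel' _ h2
    have h4 : (y + 1 + (e - d - 1)) % n = x % n := h3
    rw [h4, Nat.mod_eq_of_lt hx]
  rw [h1, ← hk1, h, hk2]

theorem nxt_inj {n : ℕ} (κ : ℕ → α) {x y : ℕ} (hx : x < n) (hy : y < n)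
    (h : nxt n κ x = nxt n κ y) : x = y := by
  obtain ⟨d, hd, h1, h2, h3⟩ := nxt_spec κ hx
  obtain ⟨e, he, h1', h2', h3'⟩ := nxt_spec κ hy
  rw [h1, h1'] at h
  rcases lt_trichotomy d e with hde | hde | hde
  · exact (nxt_inj_aux κ hx hde h h2 h2' h3').elim
  · subst hde
    have h4 : (x + (1 + d)) % n = (y + (1 + d)) % n := by
      rw [show x + (1 + d) = x + 1 + d by omega, show y + (1 + d) = y + 1 + d by omega, h]
    have h3 : x ≡ y [MOD n] := Nat.ModEq.add_right_cancel' _ h4
    have h5 : x % n = y % n := h3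
    rwa [Nat.mod_eq_of_lt hx, Nat.mod_eq_of_lt hy] at h5
  · exact (nxt_inj_aux κ hy hde h.symm h2' h2 h3).elim

/-- The next-occurrence permutation. -/
noncomputable def nxtPerm (n : ℕ) (κ : ℕ → α) : Equiv.Perm (Fin n) :=
  Equiv.ofBijective (fun x => ⟨nxt n κ x.val, nxt_lt κ x.isLt⟩) (by
    rw [Fintype.bijective_iff_injective_and_card]
    refine ⟨fun x y h => ?_, rfl⟩
    simp only [Fin.mk.injEq] at h
    exact Fin.ext (nxt_inj κ x.isLt y.isLt h))

@[simp] theorem nxtPerm_val (n : ℕ) (κ : ℕ → α) (x : Fin n) :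
    (nxtPerm n κ x).val = nxt n κ x.val := rfl

theorem nxtPerm_key (n : ℕ) (κ : ℕ → α) (x : Fin n) : κ (nxtPerm n κ x).val = κ x.val :=
  nxt_key κ x.isLt

theorem nxtPerm_conn (n : ℕ) (κ : ℕ → α) (x y : Fin n) (h : κ x.val = κ y.val) :
    ∃ k : ℕ, (nxtPerm n κ ^ k) x = y := by
  have key : ∀ e : ℕ, ∀ x : Fin n, κ x.val = κ y.val → (x.val + e) % n = y.val →
      ∃ k : ℕ, (nxtPerm n κ ^ k) x = y := by
    intro e
    induction e using Nat.strong_induction_on with
    | _ e ih =>
      intro x hxy he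
      by_cases he0 : e = 0
      · subst he0
        refine ⟨0, ?_⟩
        rw [Nat.add_zero, Nat.mod_eq_of_lt x.isLt] at he
        exact Fin.ext he
      · obtain ⟨d, hd, h1, h2, h3⟩ := nxt_spec κ x.isLt
        have hle : d ≤ e - 1 := by
          by_contra hcon
          apply h3 (e - 1) (by omega)
          rw [show x.val + 1 + (e - 1) = x.val + e by omega, he, hxy]
        obtain ⟨k, hk⟩ := ih (e - 1 - d) (by omega) (nxtPerm n κ x)
          ((nxtPerm_key n κ x).trans hxy) (by
            rw [nxtPerm_val, h1, Nat.mod_add_mod, ← he]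
            congr 1; omega)
        exact ⟨k + 1, by rw [pow_succ, Equiv.Perm.mul_apply, hk]⟩
  refine key (n - x.val + y.val) x h ?_
  have hx := x.isLt
  rw [show x.val + (n - x.val + y.val) = y.val + n by omega, Nat.add_mod_right,
    Nat.mod_eq_of_lt y.isLt]

theorem nxt_const {n : ℕ} (c : α) {x : ℕ} (hx : x < n) :
    nxt n (fun _ => c) x = if x + 1 < n then x + 1 else 0 := by
  obtain ⟨d, hd, h1, h2, h3⟩ := nxt_spec (fun _ => c) hx
  have hd0 : d = 0 := by
    by_contra hcon
    exact h3 0 (by omega) rfl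
  subst hd0
  rw [h1, Nat.add_zero]
  split_ifs with h
  · exact Nat.mod_eq_of_lt h
  · have : x + 1 = n := by omega
    rw [this, Nat.mod_self]

theorem nxt_mono_succ {n : ℕ} {κ : ℕ → ℕ} (hκ : ∀ x y, x ≤ y → y < n → κ x ≤ κ y) {p q x : ℕ}
    (hq : q < n) (hpq : κ p = κ q) (h1 : p ≤ x) (h2 : x < q) : nxt n κ x = x + 1 := by
  have hx : x < n := by omega
  obtain ⟨d, hd, h3, h4, h5⟩ := nxt_spec κ hx
  have hd0 : d = 0 := by
    by_contra hcon
    apply h5 0 (by omega)
    rw [Nat.add_zero, Nat.mod_eq_of_lt (by omega)]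
    have a1 := hκ p x h1 hx
    have a2 := hκ x (x + 1) (by omega) (by omega)
    have a3 := hκ (x + 1) q (by omega) hq
    omega
  subst hd0
  rw [h3, Nat.add_zero, Nat.mod_eq_of_lt (by omega)]

/-- The rotation system of a list of places with block labels `lab` and variables `var`. -/
noncomputable def mkRot (n : ℕ) (lab : ℕ → ℕ) (var : ℕ → α) : Rot n where
  N := nxtPerm n (fun _ => 0)
  M := nxtPerm n lab
  K := nxtPerm n var

theorem mkRot_good (n : ℕ) (lab : ℕ → ℕ) (var : ℕ → α)
    (hlab : ∀ x y, x ≤ y → y < n → lab x ≤ lab y) :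
    (mkRot n lab var).Good (fun x => lab x.val) where
  N_conn x y := nxtPerm_conn n _ x y rfl
  N_val x := nxt_const 0 x.isLt
  lab_M x := nxtPerm_key n lab x
  M_conn x y h := nxtPerm_conn n lab x y h
  cons p q hpq h x := by
    have key : ∀ x : Fin n, p ≤ x → x < q → (nxtPerm n lab x).val = x.val + 1 := fun x h1 h2 =>
      nxt_mono_succ hlab q.isLt h h1 h2
    change _ ↔ (p < nxtPerm n lab x ∧ nxtPerm n lab x ≤ q)
    constructor
    · rintro ⟨h1, h2⟩
      have := key x h1 h2
      rw [Fin.lt_def, Fin.le_def, this]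
      rw [Fin.le_def] at h1
      rw [Fin.lt_def] at h2
      omega
    · rintro ⟨h1, h2⟩
      rw [Fin.lt_def] at h1
      rw [Fin.le_def] at h2
      have hq := q.isLt
      have h3 := key ⟨(nxtPerm n lab x).val - 1, by omega⟩ (by
        rw [Fin.le_def]; simp only; omega) (by rw [Fin.lt_def]; simp only; omega)
      simp only at h3
      have h4 : nxtPerm n lab ⟨(nxtPerm n lab x).val - 1, by omega⟩ = nxtPerm n lab x := by
        apply Fin.ext
        rw [h3]
        omega
      have h5 := (nxtPerm n lab).injective h4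
      have h6 : (nxtPerm n lab x).val - 1 = x.val := congrArg Fin.val h5
      rw [Fin.le_def, Fin.lt_def]
      omega

theorem mkRot_K_inv {n : ℕ} {lab : ℕ → ℕ} {var : ℕ → α} (b : Fin n → Bool) :
    (∀ x, b ((mkRot n lab var).K x) = b x) ↔ ∀ x y : Fin n, var x.val = var y.val → b x = b y := by
  constructor
  · intro h x y hxy
    obtain ⟨k, hk⟩ := nxtPerm_conn n var x y hxy
    rw [← hk]
    clear hk
    induction k with
    | zero => rfl
    | succ k ih => rw [pow_succ', Equiv.Perm.mul_apply]; exact ih.trans (h _).symm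
  · intro h x
    exact h _ _ (nxtPerm_key n var x)

/-- Hamiltonicity of the graph of a list of places. -/
theorem mkRot_main {n : ℕ} [NeZero n] (lab : ℕ → ℕ) (var : ℕ → α)
    (hlab : ∀ x y, x ≤ y → y < n → lab x ≤ lab y) {L : ℕ} (hL : 1 ≤ L) :
    HasHamCycle ((mkRot n lab var).G L) ↔ ∃ τ : α → Bool, ∀ x : Fin n,
      ∃! y : Fin n, lab y.val = lab x.val ∧ τ (var y.val) = true := by
  rw [Rot.main _ (mkRot_good n lab var hlab) hL]
  constructor
  · rintro ⟨b, hb, h⟩
    rw [mkRot_K_inv] at hb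
    classical
    refine ⟨fun v => decide (∃ y : Fin n, var y.val = v ∧ b y = true), fun x => ?_⟩
    have e : ∀ y : Fin n, (decide (∃ z : Fin n, var z.val = var y.val ∧ b z = true) = true) ↔
        b y = true := by
      intro y
      rw [decide_eq_true_eq]
      constructor
      · rintro ⟨z, hz, hbz⟩
        rw [← hb z y hz]; exact hbz
      · intro h
        exact ⟨y, rfl, h⟩
    simp only [e]
    exact h x
  · rintro ⟨τ, h⟩
    refine ⟨fun x => τ (var x.val), ?_, h⟩
    exact (mkRot_K_inv (lab := lab) (var := var) (fun x : Fin n => τ (var x.val))).2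
      fun x y hxy => congrArg τ hxy

end H428R2
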