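import Pool.Agent.H428R2.MatGraph
import Pool.Agent.H428R2.Nxt
import Pool.Agent.H428R2.HFree

/-!
# The adjacency matrix of the graph of a list of places
-/

namespace Pool.Agent.NPC.HJ

open SimpleGraph H428R2

section

variable {α : Type} [DecidableEq α]

/-- Wires between points; the point `(x, c)` has the code `c + 8 * x`. -/
def wt (n : ℕ) (lab : ℕ → ℕ) (var : ℕ → α) (u v : ℕ) : Bool :=
  (decide (u % 8 = 0) && decide (v = 3 + 8 * nxt n var (u / 8))) ||
  ((decide (u % 8 = 1) && decide (v = 4 + 8 * nxt n var (u / 8))) ||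
  ((decide (u % 8 = 5) && decide (v = 2 + 8 * nxt n (fun _ => (0 : ℕ)) (u / 8))) ||
  (decide (u % 8 = 6) && decide (v = 7 + 8 * nxt n lab (u / 8)))))

/-- Edges of the graph on the codes of the vertices; the vertex `(u, p)` has the code
`p + (L + 1) * u`. -/
def edg (n : ℕ) (lab : ℕ → ℕ) (var : ℕ → α) (L i j : ℕ) : Bool :=
  (decide (i / (L + 1) = j / (L + 1)) && decide (i % (L + 1) + 1 = j % (L + 1))) ||
  ((wt n lab var (i / (L + 1)) (j / (L + 1)) &&
    (decide (i % (L + 1) = L) && decide (j % (L + 1) = L))) ||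
  (decide (i / (L + 1) / 8 = j / (L + 1) / 8) &&
    (decide ((i / (L + 1) % 8 + 1) % 8 = j / (L + 1) % 8) &&
      (decide (i % (L + 1) = 0) && decide (j % (L + 1) = 0)))))

/-- The adjacency matrix. -/
def mat (n : ℕ) (lab : ℕ → ℕ) (var : ℕ → α) (L : ℕ) : List (List Bool) :=
  (List.range (n * 8 * (L + 1))).map fun i => (List.range (n * 8 * (L + 1))).map fun j =>
    edg n lab var L i j

theorem mat_length (n : ℕ) (lab : ℕ → ℕ) (var : ℕ → α) (L : ℕ) :
    (mat n lab var L).length = n * 8 * (L + 1) := by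
  simp [mat]

theorem ent_mat (n : ℕ) (lab : ℕ → ℕ) (var : ℕ → α) (L : ℕ) {i j : ℕ}
    (hi : i < n * 8 * (L + 1)) (hj : j < n * 8 * (L + 1)) :
    ent (mat n lab var L) i j = edg n lab var L i j := by
  have h1 : (mat n lab var L).getD i [] = (List.range (n * 8 * (L + 1))).map fun j =>
      edg n lab var L i j := by
    unfold mat
    rw [List.getD_eq_getElem _ _ (by simpa using hi), List.getElem_map, List.getElem_range]
  unfold ent
  rw [h1, List.getD_eq_getElem _ _ (by simpa using hj), List.getElem_map, List.getElem_range]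

/-- The code of a vertex. -/
def code {n L : ℕ} (v : Vtx n L) : ℕ := v.2.val + (L + 1) * (v.1.2.val + 8 * v.1.1.val)

theorem code_lt {n L : ℕ} (v : Vtx n L) : code v < n * 8 * (L + 1) := by
  have h1 := v.2.isLt
  have h2 := v.1.2.isLt
  have h3 := v.1.1.isLt
  unfold code
  have h4 : v.1.2.val + 8 * v.1.1.val + 1 ≤ n * 8 := by omega
  calc v.2.val + (L + 1) * (v.1.2.val + 8 * v.1.1.val)
      < (L + 1) + (L + 1) * (v.1.2.val + 8 * v.1.1.val) := by omega
    _ = (L + 1) * (v.1.2.val + 8 * v.1.1.val + 1) := by ring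
    _ ≤ (L + 1) * (n * 8) := Nat.mul_le_mul_left _ h4
    _ = n * 8 * (L + 1) := by ring

theorem code_div {n L : ℕ} (v : Vtx n L) : code v / (L + 1) = v.1.2.val + 8 * v.1.1.val := by
  unfold code
  rw [Nat.add_mul_div_left _ _ (by omega), Nat.div_eq_of_lt v.2.isLt, Nat.zero_add]

theorem code_mod {n L : ℕ} (v : Vtx n L) : code v % (L + 1) = v.2.val := by
  unfold code
  rw [Nat.add_mul_mod_self_left, Nat.mod_eq_of_lt v.2.isLt]

theorem code_div8 {n L : ℕ} (v : Vtx n L) : code v / (L + 1) / 8 = v.1.1.val := by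
  rw [code_div]
  have := v.1.2.isLt
  omega

theorem code_mod8 {n L : ℕ} (v : Vtx n L) : code v / (L + 1) % 8 = v.1.2.val := by
  rw [code_div]
  have := v.1.2.isLt
  omega

theorem code_inj {n L : ℕ} : Function.Injective (code : Vtx n L → ℕ) := by
  intro u v h
  have h1 : u.2 = v.2 := Fin.ext (by rw [← code_mod u, h, code_mod])
  have h2 : u.1.1 = v.1.1 := Fin.ext (by rw [← code_div8 u, h, code_div8])
  have h3 : u.1.2 = v.1.2 := Fin.ext (by rw [← code_mod8 u, h, code_mod8])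
  exact Prod.ext (Prod.ext h2 h3) h1

theorem fin8_succ (c d : Fin 8) : c + 1 = d ↔ (c.val + 1) % 8 = d.val := by
  revert c d; decide

theorem om_iff {n : ℕ} (lab : ℕ → ℕ) (var : ℕ → α) (u v : Fin n × Fin 8) :
    v = (mkRot n lab var).om u ↔
      (wt n lab var (u.2.val + 8 * u.1.val) (v.2.val + 8 * v.1.val) = true ∨
       wt n lab var (v.2.val + 8 * v.1.val) (u.2.val + 8 * u.1.val) = true) := by
  obtain ⟨x, c⟩ := u
  obtain ⟨y, d⟩ := v
  have hx : (c.val + 8 * x.val) / 8 = x.val := by have := c.isLt; omega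
  have hc : (c.val + 8 * x.val) % 8 = c.val := by have := c.isLt; omega
  have hy : (d.val + 8 * y.val) / 8 = y.val := by have := d.isLt; omega
  have hd : (d.val + 8 * y.val) % 8 = d.val := by have := d.isLt; omega
  have key : ∀ (e : ℕ) (_ : e < 8) (z : ℕ), (d.val + 8 * y.val = e + 8 * z) ↔
      (d.val = e ∧ y.val = z) := by
    intro e he z; have := d.isLt; omega
  have key' : ∀ (e : ℕ) (_ : e < 8) (z : ℕ), (c.val + 8 * x.val = e + 8 * z) ↔
      (c.val = e ∧ x.val = z) := by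
    intro e he z; have := c.isLt; omega
  have eK : ∀ x y : Fin n, y.val = nxt n var x.val ↔ y = (mkRot n lab var).K x := by
    intro x y; rw [Fin.ext_iff]; exact Iff.rfl
  have eM : ∀ x y : Fin n, y.val = nxt n lab x.val ↔ y = (mkRot n lab var).M x := by
    intro x y; rw [Fin.ext_iff]; exact Iff.rfl
  have eN : ∀ x y : Fin n, y.val = nxt n (fun _ => (0 : ℕ)) x.val ↔
      y = (mkRot n lab var).N x := by
    intro x y; rw [Fin.ext_iff]; exact Iff.rfl
  simp only [wt, hx, hc, hy, hd, key 3 (by omega), key 4 (by omega), key 2 (by omega),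
    key 7 (by omega), key' 3 (by omega), key' 4 (by omega), key' 2 (by omega),
    key' 7 (by omega), eK, eM, eN, Bool.or_eq_true, Bool.and_eq_true, decide_eq_true_eq]
  have s1 : ∀ (P : Equiv.Perm (Fin n)), (y = P.symm x ↔ x = P y) := by
    intro P
    constructor
    · rintro rfl; simp
    · rintro rfl; simp
  have v0 : d.val = 0 ↔ d = 0 := by rw [Fin.ext_iff]; rfl
  have v1 : d.val = 1 ↔ d = 1 := by rw [Fin.ext_iff]; rfl
  have v2 : d.val = 2 ↔ d = 2 := by rw [Fin.ext_iff]; rfl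
  have v3 : d.val = 3 ↔ d = 3 := by rw [Fin.ext_iff]; rfl
  have v4 : d.val = 4 ↔ d = 4 := by rw [Fin.ext_iff]; rfl
  have v5 : d.val = 5 ↔ d = 5 := by rw [Fin.ext_iff]; rfl
  have v6 : d.val = 6 ↔ d = 6 := by rw [Fin.ext_iff]; rfl
  have v7 : d.val = 7 ↔ d = 7 := by rw [Fin.ext_iff]; rfl
  simp only [v0, v1, v2, v3, v4, v5, v6, v7]
  unfold Rot.om
  clear hx hc hy hd key key' eK eM eN v0 v1 v2 v3 v4 v5 v6 v7
  fin_cases c <;> simp [s1, and_comm]

theorem adj_iff {n L : ℕ} (lab : ℕ → ℕ) (var : ℕ → α) (u v : Vtx n L) :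
    ((mkRot n lab var).G L).Adj u v ↔ code u ≠ code v ∧
      (edg n lab var L (code u) (code v) = true ∨ edg n lab var L (code v) (code u) = true) := by
  have hne : code u ≠ code v ↔ u ≠ v := code_inj.ne_iff
  have hdd : code u / (L + 1) = code v / (L + 1) ↔ u.1 = v.1 := by
    constructor
    · intro h
      have h2 : u.1.1 = v.1.1 := Fin.ext (by rw [← code_div8 u, h, code_div8])
      have h3 : u.1.2 = v.1.2 := Fin.ext (by rw [← code_mod8 u, h, code_mod8])
      exact Prod.ext h2 h3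
    · intro h
      rw [code_div, code_div, h]
  have hdd' : code v / (L + 1) = code u / (L + 1) ↔ u.1 = v.1 := by rw [eq_comm, hdd]
  simp only [edg, hdd, hdd', hne, code_mod, code_div8, code_mod8, Bool.or_eq_true,
    Bool.and_eq_true, decide_eq_true_eq]
  rw [code_div u, code_div v]
  constructor
  · intro h
    refine ⟨h.ne, ?_⟩
    rcases h with ⟨h1, h2⟩ | ⟨h1, h2, h3⟩ | ⟨h1, h2, h3, h4⟩
    · rcases h2 with h2 | h2
      · exact Or.inl (Or.inl ⟨h1, h2⟩)
      · exact Or.inr (Or.inl ⟨h1, h2⟩)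
    · rcases (om_iff lab var u.1 v.1).1 h1 with h | h
      · exact Or.inl (Or.inr (Or.inl ⟨h, h2, h3⟩))
      · exact Or.inr (Or.inr (Or.inl ⟨h, h3, h2⟩))
    · rcases h2 with h2 | h2
      · exact Or.inl (Or.inr (Or.inr ⟨congrArg Fin.val h1, (fin8_succ _ _).1 h2, h3, h4⟩))
      · exact Or.inr (Or.inr (Or.inr ⟨congrArg Fin.val h1.symm, (fin8_succ _ _).1 h2, h4, h3⟩))
  · rintro ⟨_, h⟩
    rcases h with (⟨h1, h2⟩ | ⟨h1, h2, h3⟩ | ⟨h1, h2, h3, h4⟩) |
      (⟨h1, h2⟩ | ⟨h1, h2, h3⟩ | ⟨h1, h2, h3, h4⟩)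
    · exact Or.inl ⟨h1, Or.inl h2⟩
    · exact Or.inr (Or.inl ⟨(om_iff lab var u.1 v.1).2 (Or.inl h1), h2, h3⟩)
    · exact Or.inr (Or.inr ⟨Fin.ext h1, Or.inl ((fin8_succ _ _).2 h2), h3, h4⟩)
    · exact Or.inl ⟨h1, Or.inr h2⟩
    · exact Or.inr (Or.inl ⟨(om_iff lab var u.1 v.1).2 (Or.inr h1), h3, h2⟩)
    · exact Or.inr (Or.inr ⟨Fin.ext h1.symm, Or.inr ((fin8_succ _ _).2 h2), h4, h3⟩)

/-- The graph of the matrix is the graph of the rotation system. -/
theorem exists_iso (n : ℕ) (lab : ℕ → ℕ) (var : ℕ → α) (L : ℕ) :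
    Nonempty ((mkRot n lab var).G L ≃g matGraph (mat n lab var L)) := by
  have hlen := mat_length n lab var L
  let e : Vtx n L → Fin (mat n lab var L).length := fun v => ⟨code v, by
    rw [hlen]; exact code_lt v⟩
  have hinj : Function.Injective e := fun u v h => code_inj (congrArg Fin.val h)
  have hbij : Function.Bijective e := by
    rw [Fintype.bijective_iff_injective_and_card]
    refine ⟨hinj, ?_⟩
    simp only [Fintype.card_prod, Fintype.card_fin, hlen]
  refine ⟨⟨Equiv.ofBijective e hbij, ?_⟩⟩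
  intro u v
  simp only [Equiv.ofBijective_apply]
  rw [matGraph_adj, adj_iff]
  simp only [e, adjb, ent_mat n lab var L (code_lt u) (code_lt v),
    ent_mat n lab var L (code_lt v) (code_lt u), Bool.and_eq_true, Bool.or_eq_true,
    Bool.not_eq_true', decide_eq_false_iff_not, ne_eq]

end

theorem hasHamCycle_of_iso {V W : Type*} [DecidableEq V] [DecidableEq W] {G : SimpleGraph V}
    {H : SimpleGraph W} (e : G ≃g H) (h : HasHamCycle G) : HasHamCycle H := by
  obtain ⟨a, p, hp⟩ := h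
  exact ⟨e a, p.map e.toHom, hp.map e.bijective⟩

theorem hasHamCycle_iso {V W : Type*} [DecidableEq V] [DecidableEq W] {G : SimpleGraph V}
    {H : SimpleGraph W} (e : G ≃g H) : HasHamCycle G ↔ HasHamCycle H :=
  ⟨hasHamCycle_of_iso e, hasHamCycle_of_iso e.symm⟩

end Pool.Agent.NPC.HJ
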