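import Mathlib

/-!
# Hamiltonian cycles as connected 2-regular spanning subgraphs
-/

namespace H428R2

open SimpleGraph

variable {V : Type*}

/-- The graph has a cycle through all its vertices. -/
def HasHamCycle [DecidableEq V] (G : SimpleGraph V) : Prop :=
  ∃ (a : V) (p : G.Walk a a), p.IsHamiltonianCycle

/-- `F` is a connected spanning subgraph of `G` with all degrees two. -/
def IsHamSub (G F : SimpleGraph V) : Prop :=
  F ≤ G ∧ F.Connected ∧ ∀ v, (F.neighborSet v).ncard = 2

theorem hasHamCycle_iff [Fintype V] [DecidableEq V] (G : SimpleGraph V) :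
    HasHamCycle G ↔ ∃ F, IsHamSub G F := by
  constructor
  · rintro ⟨a, p, hp⟩
    refine ⟨p.toSubgraph.spanningCoe, ?_, ?_, ?_⟩
    · intro u v h
      exact p.toSubgraph.adj_sub h
    · have hv : p.toSubgraph.verts = Set.univ := by
        ext v
        simp [hp.mem_support v]
      have hc := p.toSubgraph_connected
      have : Nonempty V := ⟨a⟩
      refine ⟨fun u v => ?_⟩
      have hu' : u ∈ p.toSubgraph.verts := by rw [hv]; trivial
      have hv' : v ∈ p.toSubgraph.verts := by rw [hv]; trivial
      have h1 : p.toSubgraph.coe.Reachable ⟨u, hu'⟩ ⟨v, hv'⟩ := hc.coe.preconnected _ _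
      have := h1.map (⟨fun x => x.1, fun {x y} h => by simpa using h⟩ :
        p.toSubgraph.coe →g p.toSubgraph.spanningCoe)
      exact this
    · intro v
      have := hp.isCycle.ncard_neighborSet_toSubgraph_eq_two (hp.mem_support v)
      have h2 : p.toSubgraph.spanningCoe.neighborSet v = p.toSubgraph.neighborSet v := by
        ext w; simp [Subgraph.mem_neighborSet]
      rw [h2]; exact this
  · rintro ⟨F, hFG, hc, h2⟩
    obtain ⟨v⟩ := hc.nonempty
    have hcyc : F.IsCycles := fun v _ => h2 v
    have hne : (F.neighborSet v).Nonempty := by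
      apply Set.nonempty_of_ncard_ne_zero
      rw [h2 v]; norm_num
    obtain ⟨p, hp, hps⟩ := hcyc.exists_cycle_toSubgraph_verts_eq_connectedComponentSupp
      (c := F.connectedComponentMk v) (v := v) (by simp) hne
    have hall : ∀ w, w ∈ p.support := by
      intro w
      rw [← p.mem_verts_toSubgraph, hps]
      simp only [ConnectedComponent.mem_supp_iff, ConnectedComponent.eq]
      exact hc.preconnected _ _
    have hp' : (p.mapLe hFG).IsCycle := hp.mapLe hFG
    refine ⟨v, p.mapLe hFG, ?_⟩
    rw [Walk.isHamiltonianCycle_isCycle_and_isHamiltonian_tail]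
    refine ⟨hp', hp'.isPath_tail.isHamiltonian_of_mem fun w => ?_⟩
    have hw : w ∈ (p.mapLe hFG).support := by
      rw [Walk.support_mapLe_eq_support]; exact hall w
    rw [Walk.support_tail_of_not_nil _ hp'.not_nil]
    by_cases hwv : w = v
    · subst hwv
      exact Walk.end_mem_tail_support hp'.not_nil
    · have : w ∈ w :: (p.mapLe hFG).support.tail := by simp
      rw [← Walk.cons_tail_support, List.mem_cons] at hw
      rcases hw with h | h
      · exact absurd h hwv
      · exact h

/-- Connectedness in terms of invariant predicates. -/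
theorem connected_iff_invariant [Nonempty V] (F : SimpleGraph V) :
    F.Connected ↔ ∀ f : V → Bool, (∀ u v, F.Adj u v → f u = f v) → ∀ u v, f u = f v := by
  constructor
  · intro h f hf u v
    obtain ⟨p⟩ := h.preconnected u v
    induction p with
    | nil => rfl
    | cons h' _ ih => exact (hf _ _ h').trans ih
  · intro h
    refine ⟨fun u v => ?_⟩
    classical
    have := h (fun w => decide (F.Reachable u w)) (fun a b hab => by
      simp only [decide_eq_decide]
      exact ⟨fun h => h.trans hab.reachable, fun h => h.trans hab.symm.reachable⟩) u v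
    simpa using this

end H428R2
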