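import Pool.Agent.NPC.Dec
import Pool.Agent.H428R2.HamSub

/-!
# Graphs given by adjacency matrices: polynomial-time predicates
-/

namespace Pool.Agent.NPC.HJ

open SimpleGraph H428R2

/-- The entry of a 0-1 matrix (out of range: `false`). -/
def ent (A : List (List Bool)) (i j : ℕ) : Bool := (A.getD i []).getD j false

/-- The graph of an adjacency matrix: vertices `0, …, A.length - 1`, an edge between `i ≠ j`
if the entry `i j` or the entry `j i` is `true`. -/
def matGraph (A : List (List Bool)) : SimpleGraph (Fin A.length) :=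
  SimpleGraph.fromRel fun i j => ent A i.val j.val = true

/-- Adjacency as a boolean. -/
def adjb (A : List (List Bool)) (i j : ℕ) : Bool :=
  !(decide (i = j)) && (ent A i j || ent A j i)

theorem matGraph_adj (A : List (List Bool)) (i j : Fin A.length) :
    (matGraph A).Adj i j ↔ adjb A i.val j.val = true := by
  simp [matGraph, adjb, Fin.ext_iff]

section

variable {α : Type} [TEnc α]

theorem poly_ent {A : α → List (List Bool)} {i j : α → ℕ} (hA : Poly A) (hi : Poly i)
    (hj : Poly j) : Poly (fun a => ent (A a) (i a) (j a)) :=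
  Poly.getD (Poly.getD hA hi (Poly.const _)) hj (Poly.const _)

theorem poly_adjb {A : α → List (List Bool)} {i j : α → ℕ} (hA : Poly A) (hi : Poly i)
    (hj : Poly j) : Poly (fun a => adjb (A a) (i a) (j a)) :=
  Poly.and (Poly.not (Poly.decide_eq hi hj)) (Poly.or (poly_ent hA hi hj) (poly_ent hA hj hi))

end

/-- All lists of length `k` over `0, …, m-1`. -/
def tuples (m : ℕ) : ℕ → List (List ℕ)
  | 0 => [[]]
  | k + 1 => (tuples m k).flatMap fun t => (List.range m).map fun v => v :: t

theorem mem_tuples (m : ℕ) : ∀ (k : ℕ) (t : List ℕ),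
    t ∈ tuples m k ↔ t.length = k ∧ ∀ x ∈ t, x < m
  | 0, t => by
    simp only [tuples, List.mem_singleton, List.length_eq_zero_iff]
    constructor
    · rintro rfl; simp
    · rintro ⟨h, _⟩; exact h
  | k + 1, t => by
    simp only [tuples, List.mem_flatMap, List.mem_map, List.mem_range]
    constructor
    · rintro ⟨s, hs, v, hv, rfl⟩
      rw [mem_tuples m k] at hs
      refine ⟨by simp [hs.1], ?_⟩
      intro x hx
      rcases List.mem_cons.1 hx with rfl | hx
      · exact hv
      · exact hs.2 x hx
    · rintro ⟨h1, h2⟩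
      cases t with
      | nil => simp at h1
      | cons v s =>
        refine ⟨s, ?_, v, h2 v (by simp), rfl⟩
        rw [mem_tuples m k]
        exact ⟨by simpa using h1, fun x hx => h2 x (by simp [hx])⟩

theorem poly_tuples {α : Type} [TEnc α] {m : α → ℕ} (hm : UPoly m) :
    ∀ k : ℕ, Poly (fun a => tuples (m a) k)
  | 0 => Poly.const _
  | k + 1 => by
    refine Poly.flatMap (F := fun a t => (List.range (m a)).map fun v => v :: t)
      (poly_tuples hm k) ?_
    refine Poly.map (F := fun (p : α × List ℕ) v => v :: p.2)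
      ((UPoly.range hm).comp (Poly.fst Poly.id)) ?_
    exact Poly.cons (Poly.snd Poly.id) (Poly.snd (Poly.fst Poly.id))

section Contain

variable {k : ℕ} (H : SimpleGraph (Fin k))

open Classical in
/-- The edges of a fixed graph, as a list. -/
noncomputable def edgeL : List (ℕ × ℕ) :=
  ((Finset.univ.filter fun e : Fin k × Fin k => H.Adj e.1 e.2).toList).map
    fun e => (e.1.val, e.2.val)

/-- The pairs of different vertices of a fixed graph, as a list. -/
noncomputable def diffL (k : ℕ) : List (ℕ × ℕ) :=
  ((Finset.univ.filter fun e : Fin k × Fin k => e.1 ≠ e.2).toList).map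
    fun e => (e.1.val, e.2.val)

/-- Does the graph of `A` have a subgraph isomorphic to `H`? -/
noncomputable def containsb (A : List (List Bool)) : Bool :=
  (tuples A.length k).any fun t =>
    ((edgeL H).all fun e => adjb A (t.getD e.1 0) (t.getD e.2 0)) &&
      ((diffL k).all fun e => !(decide (t.getD e.1 0 = t.getD e.2 0)))

theorem containsb_iff (A : List (List Bool)) : containsb H A = true ↔ H ⊑ matGraph A := by
  classical
  simp only [containsb, List.any_eq_true, Bool.and_eq_true, List.all_eq_true, mem_tuples]
  constructor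
  · rintro ⟨t, ⟨h1, h2⟩, h3, h4⟩
    have hlt : ∀ i : Fin k, t.getD i.val 0 < A.length := by
      intro i
      rw [List.getD_eq_getElem _ _ (by rw [h1]; exact i.isLt)]
      exact h2 _ (List.getElem_mem _)
    refine ⟨⟨⟨fun i => ⟨t.getD i.val 0, hlt i⟩, ?_⟩, ?_⟩⟩
    · intro a b hab
      rw [matGraph_adj]
      exact h3 (a.val, b.val) (by
        simp only [edgeL, List.mem_map, Finset.mem_toList, Finset.mem_filter, Finset.mem_univ,
          true_and]
        exact ⟨(a, b), hab, rfl⟩)
    · intro a b hab
      by_contra hne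
      have := h4 (a.val, b.val) (by
        simp only [diffL, List.mem_map, Finset.mem_toList, Finset.mem_filter, Finset.mem_univ,
          true_and]
        exact ⟨(a, b), hne, rfl⟩)
      simp only [Bool.not_eq_true', decide_eq_false_iff_not] at this
      exact this (congrArg Fin.val hab)
  · rintro ⟨φ⟩
    refine ⟨(List.finRange k).map fun i => (φ i).val, ⟨by simp, ?_⟩, ?_, ?_⟩
    · intro x hx
      simp only [List.mem_map, List.mem_finRange, true_and] at hx
      obtain ⟨i, rfl⟩ := hx
      exact (φ i).isLt
    · have hg : ∀ i : Fin k, ((List.finRange k).map fun i => (φ i).val).getD i.val 0 =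
          (φ i).val := by
        intro i
        rw [List.getD_eq_getElem _ _ (by simp)]
        simp
      intro e he
      simp only [edgeL, List.mem_map, Finset.mem_toList, Finset.mem_filter, Finset.mem_univ,
        true_and] at he
      obtain ⟨⟨a, b⟩, hab, rfl⟩ := he
      simp only [hg]
      rw [← matGraph_adj]
      exact φ.toHom.map_adj hab
    · have hg : ∀ i : Fin k, ((List.finRange k).map fun i => (φ i).val).getD i.val 0 =
          (φ i).val := by
        intro i
        rw [List.getD_eq_getElem _ _ (by simp)]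
        simp
      intro e he
      simp only [diffL, List.mem_map, Finset.mem_toList, Finset.mem_filter, Finset.mem_univ,
        true_and] at he
      obtain ⟨⟨a, b⟩, hab, rfl⟩ := he
      simp only [hg, Bool.not_eq_true', decide_eq_false_iff_not]
      intro h
      exact hab (φ.injective (Fin.ext h))

/-- The test of `containsb` for one tuple. -/
noncomputable def testb (A : List (List Bool)) (t : List ℕ) (E D : List (ℕ × ℕ)) : Bool :=
  (E.all fun e => adjb A (t.getD e.1 0) (t.getD e.2 0)) &&
    (D.all fun e => !(decide (t.getD e.1 0 = t.getD e.2 0)))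

theorem poly_testb : Poly (fun p : (List (List Bool) × List ℕ) × List (ℕ × ℕ) × List (ℕ × ℕ) =>
    testb p.1.1 p.1.2 p.2.1 p.2.2) := by
  refine Poly.and ?_ ?_
  · refine Poly.all (p := fun (p : (List (List Bool) × List ℕ) × List (ℕ × ℕ) × List (ℕ × ℕ))
      (e : ℕ × ℕ) => adjb p.1.1 (p.1.2.getD e.1 0) (p.1.2.getD e.2 0))
      (Poly.fst (Poly.snd Poly.id)) ?_
    exact poly_adjb (Poly.fst (Poly.fst (Poly.fst Poly.id)))
      (Poly.getD (Poly.snd (Poly.fst (Poly.fst Poly.id))) (Poly.fst (Poly.snd Poly.id))
        (Poly.const _))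
      (Poly.getD (Poly.snd (Poly.fst (Poly.fst Poly.id))) (Poly.snd (Poly.snd Poly.id))
        (Poly.const _))
  · refine Poly.all (p := fun (p : (List (List Bool) × List ℕ) × List (ℕ × ℕ) × List (ℕ × ℕ))
      (e : ℕ × ℕ) => !(decide (p.1.2.getD e.1 0 = p.1.2.getD e.2 0)))
      (Poly.snd (Poly.snd Poly.id)) ?_
    exact Poly.not (Poly.decide_eq
      (Poly.getD (Poly.snd (Poly.fst (Poly.fst Poly.id))) (Poly.fst (Poly.snd Poly.id))
        (Poly.const _))
      (Poly.getD (Poly.snd (Poly.fst (Poly.fst Poly.id))) (Poly.snd (Poly.snd Poly.id))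
        (Poly.const _)))

theorem poly_containsb {α : Type} [TEnc α] {A : α → List (List Bool)} (hA : Poly A) :
    Poly (fun a => containsb H (A a)) := by
  have h : ∀ E D : List (ℕ × ℕ), Poly (fun a => (tuples (A a).length k).any fun t =>
      testb (A a) t E D) := fun E D =>
    Poly.any (p := fun a t => testb (A a) t E D) (poly_tuples (UPoly.length hA) k)
      (poly_testb.comp (Poly.pair (Poly.pair (hA.comp (Poly.fst Poly.id)) (Poly.snd Poly.id))
        (Poly.const (E, D))))
  exact h (edgeL H) (diffL k)

/-- `H`-subgraph-freeness is decidable in polynomial time, for every fixed `H`. -/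
theorem free_inP : InPP (fun A : List (List Bool) => H.Free (matGraph A)) := by
  refine inPP_of (d := fun A => !(containsb H A)) (Poly.not (poly_containsb H Poly.id))
    fun A => ?_
  rw [Bool.not_eq_true', ← Bool.not_eq_true, containsb_iff]

end Contain

section Ham

/-- Is `l` a Hamiltonian cycle of the graph of `A`? -/
def hamb (A : List (List Bool)) (l : List ℕ) : Bool :=
  decide (l.length = A.length) && decide (3 ≤ A.length) &&
    ((List.range A.length).all fun i => decide (i ∈ l)) &&
    ((List.range A.length).all fun i => adjb A (l.getD i 0) (l.getD ((i + 1) % A.length) 0))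

theorem poly_hamb {α : Type} [TEnc α] {A : α → List (List Bool)} {l : α → List ℕ} (hA : Poly A)
    (hl : Poly l) : Poly (fun a => hamb (A a) (l a)) := by
  refine Poly.and (Poly.and (Poly.and ?_ ?_) ?_) ?_
  · exact Poly.decide_eq (Poly.length hl) (Poly.length hA)
  · exact Poly.decide_le (Poly.const _) (Poly.length hA)
  · exact Poly.all (p := fun a i => decide (i ∈ l a)) (Poly.range_length hA)
      (Poly.decide_mem (Poly.snd Poly.id) (hl.comp (Poly.fst Poly.id)))
  · refine Poly.all (p := fun a i => adjb (A a) ((l a).getD i 0)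
      ((l a).getD ((i + 1) % (A a).length) 0)) (Poly.range_length hA) ?_
    exact poly_adjb (hA.comp (Poly.fst Poly.id))
      (Poly.getD (hl.comp (Poly.fst Poly.id)) (Poly.snd Poly.id) (Poly.const _))
      (Poly.getD (hl.comp (Poly.fst Poly.id)) (Poly.mod (Poly.succ (Poly.snd Poly.id))
        ((Poly.length hA).comp (Poly.fst Poly.id))) (Poly.const _))

theorem hasHamCycle_iff_cycleGraph {V : Type*} [Fintype V] [DecidableEq V] (G : SimpleGraph V) :
    HasHamCycle G ↔ 3 ≤ Fintype.card V ∧ cycleGraph (Fintype.card V) ⊑ G := by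
  constructor
  · rintro ⟨v, p, hp⟩
    have h1 := hp.length_eq
    have h2 := hp.isCycle.three_le_length
    refine ⟨by omega, ?_⟩
    rw [cycleGraph_isContained_iff (by omega)]
    exact ⟨v, p, hp.isCycle, h1⟩
  · rintro ⟨h1, h2⟩
    rw [cycleGraph_isContained_iff (by omega)] at h2
    obtain ⟨v, p, hp, hl⟩ := h2
    exact ⟨v, p, Walk.isHamiltonianCycle_iff_isCycle_and_length_eq.2 ⟨hp, hl⟩⟩

theorem cycleGraph_adj_iff {m : ℕ} (hm : 3 ≤ m) (i j : Fin m) :
    (cycleGraph m).Adj i j ↔ j.val = (i.val + 1) % m ∨ i.val = (j.val + 1) % m := by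
  obtain ⟨m, rfl⟩ : ∃ k, m = k + 2 := ⟨m - 2, by omega⟩
  rw [cycleGraph_adj]
  have h1 : ∀ i j : Fin (m + 2), j - i = 1 ↔ j.val = (i.val + 1) % (m + 2) := by
    intro i j
    rw [sub_eq_iff_eq_add, Fin.ext_iff, Fin.val_add]
    have : (1 : Fin (m + 2)).val = 1 := by simp
    rw [this, Nat.add_comm 1 i.val]
  rw [h1, h1]
  exact Or.comm

theorem hamb_iff (A : List (List Bool)) :
    HasHamCycle (matGraph A) ↔ ∃ l : List ℕ, hamb A l = true := by
  rw [hasHamCycle_iff_cycleGraph, Fintype.card_fin]
  simp only [hamb, Bool.and_eq_true, decide_eq_true_eq, List.all_eq_true, List.mem_range]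
  constructor
  · rintro ⟨h1, ⟨φ⟩⟩
    have hsurj : Function.Surjective φ := Finite.surjective_of_injective φ.injective
    refine ⟨(List.finRange A.length).map fun i => (φ i).val, ⟨⟨by simp, h1⟩, ?_⟩, ?_⟩
    · intro i hi
      obtain ⟨k, hk⟩ := hsurj ⟨i, hi⟩
      simp only [List.mem_map, List.mem_finRange, true_and]
      exact ⟨k, by rw [hk]⟩
    · have hg : ∀ (i : ℕ) (hi : i < A.length),
          ((List.finRange A.length).map fun i => (φ i).val).getD i 0 = (φ ⟨i, hi⟩).val := by
        intro i hi
        rw [List.getD_eq_getElem _ _ (by simpa using hi)]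
        simp
      intro i hi
      have hi' : (i + 1) % A.length < A.length := Nat.mod_lt _ (by omega)
      rw [hg i hi, hg _ hi', ← matGraph_adj]
      apply φ.toHom.map_adj
      rw [cycleGraph_adj_iff h1]
      left; rfl
  · rintro ⟨l, ⟨⟨h1, h2⟩, h3⟩, h4⟩
    refine ⟨h2, ?_⟩
    -- all entries are in range
    have hperm : ∀ x ∈ l, x < A.length := by
      have hsub : (List.range A.length) ⊆ l := fun i hi => h3 i (List.mem_range.1 hi)
      have hsp : (List.range A.length).Subperm l := List.subperm_of_subset List.nodup_range hsub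
      have hp : (List.range A.length).Perm l :=
        hsp.perm_of_length_le (by rw [h1, List.length_range])
      intro x hx
      exact List.mem_range.1 (hp.mem_iff.2 hx)
    have hlt : ∀ i : Fin A.length, l.getD i.val 0 < A.length := by
      intro i
      rw [List.getD_eq_getElem _ _ (by rw [h1]; exact i.isLt)]
      exact hperm _ (List.getElem_mem _)
    let φ : Fin A.length → Fin A.length := fun i => ⟨l.getD i.val 0, hlt i⟩
    have hsurj : Function.Surjective φ := by
      intro k
      have hk := h3 k.val k.isLt
      obtain ⟨i, hi, hik⟩ := List.getElem_of_mem hk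
      refine ⟨⟨i, by rw [← h1]; exact hi⟩, Fin.ext ?_⟩
      simp only [φ]
      rw [List.getD_eq_getElem _ _ hi, hik]
    have hinj : Function.Injective φ := Finite.injective_iff_surjective.2 hsurj
    refine ⟨⟨⟨φ, ?_⟩, hinj⟩⟩
    intro i j hij
    rw [matGraph_adj]
    have hsymm : ∀ i j : ℕ, adjb A i j = adjb A j i := by
      intro i j
      simp only [adjb, eq_comm (a := i) (b := j), Bool.or_comm (ent A i j)]
    rw [cycleGraph_adj_iff h2] at hij
    rcases hij with hij | hij
    · have := h4 i.val i.isLt
      simp only [φ]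
      rw [hij]; exact this
    · have := h4 j.val j.isLt
      simp only [φ]
      rw [hsymm, hij]; exact this

/-- Hamiltonicity restricted to a polynomial-time recognisable class is in NP. -/
theorem ham_inNP {P : List (List Bool) → Prop} {d : List (List Bool) → Bool} (hd : Poly d)
    (hdP : ∀ A, P A ↔ d A = true) :
    InNPP (fun A : List (List Bool) => P A ∧ HasHamCycle (matGraph A)) := by
  refine inNPP_of (β := List ℕ) (R := fun q => d q.1 && hamb q.1 q.2)
    (Poly.and (hd.comp (Poly.fst Poly.id)) (poly_hamb (Poly.fst Poly.id) (Poly.snd Poly.id)))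
    (Polynomial.X * (Polynomial.C 4 * Polynomial.X + 2) + 1) fun A => ?_
  rw [hamb_iff, hdP]
  constructor
  · rintro ⟨h1, l, h2⟩
    refine ⟨l, ?_, by simp [h1, h2]⟩
    -- size bound
    simp only [hamb, Bool.and_eq_true, decide_eq_true_eq, List.all_eq_true, List.mem_range] at h2
    obtain ⟨⟨⟨h3, h4⟩, h5⟩, h6⟩ := h2
    have hperm : ∀ x ∈ l, x < A.length := by
      have hsub : (List.range A.length) ⊆ l := fun i hi => h5 i (List.mem_range.1 hi)
      have hsp : (List.range A.length).Subperm l := List.subperm_of_subset List.nodup_range hsub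
      have hp : (List.range A.length).Perm l :=
        hsp.perm_of_length_le (by rw [h3, List.length_range])
      intro x hx
      exact List.mem_range.1 (hp.mem_iff.2 hx)
    have hA := length_lt_sz A
    have h7 : sz l ≤ l.length * (4 * A.length + 1 + 1) + 1 := by
      refine (sz_le_length_mul l (4 * A.length + 1) fun x hx => ?_)
      refine (sz_nat_le x).trans ?_
      have := Poly.size_le_self x
      have := hperm x hx
      omega
    simp only [Polynomial.eval_add, Polynomial.eval_mul, Polynomial.eval_X, Polynomial.eval_C,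
      Polynomial.eval_one, Polynomial.eval_ofNat]
    refine h7.trans ?_
    rw [h3]
    have : A.length * (4 * A.length + 1 + 1) ≤ sz A * (4 * sz A + 2) :=
      Nat.mul_le_mul (by omega) (by omega)
    omega
  · rintro ⟨l, _, h⟩
    simp only [Bool.and_eq_true] at h
    exact ⟨h.1, l, h.2⟩

end Ham

end Pool.Agent.NPC.HJ
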