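import Pool.Agent.H428R2.Blocks

/-!
# 3-satisfiability reduces to exact-one satisfiability of blocks
-/

namespace Pool.Agent.NPC.HJ

open SimpleGraph H428R2

/-- Clauses with three literals. -/
abbrev Cl : Type := Lit ℕ × Lit ℕ × Lit ℕ

/-- The variable of a literal: `(0, v)` for `v` and `(1, v)` for its negation. -/
def lw (l : Lit ℕ) : ℕ × ℕ := (if l.1 = true then 0 else 1, l.2)

/-- The variable of the negation of a literal. -/
def lwn (l : Lit ℕ) : ℕ × ℕ := (if l.1 = true then 1 else 0, l.2)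

/-- The blocks of a clause. -/
def cb (i : ℕ) (c : Cl) : List (List (ℕ × ℕ)) :=
  [[lwn c.1, (2, i), (3, i)], [lw c.2.1, (3, i), (4, i)], [lwn c.2.2, (4, i), (5, i)],
    [(0, c.1.2), (1, c.1.2)], [(0, c.2.1.2), (1, c.2.1.2)], [(0, c.2.2.2), (1, c.2.2.2)]]

/-- The blocks of a formula. -/
def blocks (φ : List Cl) : List (List (ℕ × ℕ)) :=
  [(6, 0)] :: φ.zipIdx.flatMap fun p => cb p.2 p.1

/-- The assignment for the blocks obtained from a satisfying assignment. -/
def asg (φ : List Cl) (σ : ℕ → Bool) (w : ℕ × ℕ) : Bool :=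
  if w.1 = 0 then σ w.2 else if w.1 = 1 then !(σ w.2) else
    match φ[w.2]? with
    | none => true
    | some c =>
      let A := σ c.1.2 == c.1.1
      let B := σ c.2.1.2 == c.2.1.1
      let C := σ c.2.2.2 == c.2.2.1
      if w.1 = 2 then A && B else if w.1 = 3 then !B && A else if w.1 = 4 then !B && !A else
        if w.1 = 5 then C && !(!B && !A) else true

theorem asg_lw (φ : List Cl) (σ : ℕ → Bool) (l : Lit ℕ) : asg φ σ (lw l) = (σ l.2 == l.1) := by
  obtain ⟨b, v⟩ := l
  cases b <;> simp [asg, lw]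

theorem asg_lwn (φ : List Cl) (σ : ℕ → Bool) (l : Lit ℕ) :
    asg φ σ (lwn l) = !(σ l.2 == l.1) := by
  obtain ⟨b, v⟩ := l
  cases b <;> simp [asg, lwn]

theorem countP3 {W : Type} (τ : W → Bool) (a b c : W) : [a, b, c].countP τ =
    (τ a).toNat + (τ b).toNat + (τ c).toNat := by
  simp only [List.countP_cons, List.countP_nil, Bool.toNat]
  cases τ a <;> cases τ b <;> cases τ c <;> simp

theorem countP2 {W : Type} (τ : W → Bool) (a b : W) : [a, b].countP τ =
    (τ a).toNat + (τ b).toNat := by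
  simp only [List.countP_cons, List.countP_nil, Bool.toNat]
  cases τ a <;> cases τ b <;> simp

theorem core1 (A B C : Bool) (h : (A || B || C) = true) :
    (!A).toNat + (A && B).toNat + (!B && A).toNat = 1 ∧
    B.toNat + (!B && A).toNat + (!B && !A).toNat = 1 ∧
    (!C).toNat + (!B && !A).toNat + (C && !(!B && !A)).toNat = 1 := by
  revert A B C; decide

theorem core2 (A B C x y z w : Bool) (h1 : (!A).toNat + x.toNat + y.toNat = 1)
    (h2 : B.toNat + y.toNat + z.toNat = 1) (h3 : (!C).toNat + z.toNat + w.toNat = 1) :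
    (A || B || C) = true := by
  revert A B C x y z w; decide

theorem blocks_correct (φ : List Cl) :
    SAT3 φ ↔ ∃ τ : ℕ × ℕ → Bool, ∀ B ∈ blocks φ, B = [] ∨ B.countP τ = 1 := by
  constructor
  · rintro ⟨σ, hσ⟩
    refine ⟨asg φ σ, ?_⟩
    intro B hB
    right
    simp only [blocks, List.mem_cons, List.mem_flatMap] at hB
    rcases hB with rfl | ⟨⟨c, i⟩, hci, hB⟩
    · have : asg φ σ (6, 0) = true := by
        unfold asg
        simp only
        cases φ[0]? <;> simp
      simp [this]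
    · rw [List.mem_zipIdx_iff_getElem?] at hci
      simp only at hci hB
      have hsat := hσ c (List.mem_of_getElem? hci)
      have e2 : asg φ σ (2, i) = ((σ c.1.2 == c.1.1) && (σ c.2.1.2 == c.2.1.1)) := by
        simp [asg, hci]
      have e3 : asg φ σ (3, i) = (!(σ c.2.1.2 == c.2.1.1) && (σ c.1.2 == c.1.1)) := by
        simp [asg, hci]
      have e4 : asg φ σ (4, i) = (!(σ c.2.1.2 == c.2.1.1) && !(σ c.1.2 == c.1.1)) := by
        simp [asg, hci]
      have e5 : asg φ σ (5, i) = ((σ c.2.2.2 == c.2.2.1) &&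
          !(!(σ c.2.1.2 == c.2.1.1) && !(σ c.1.2 == c.1.1))) := by
        simp [asg, hci]
      have e0 : ∀ v, asg φ σ (0, v) = σ v := fun v => by simp [asg]
      have e1 : ∀ v, asg φ σ (1, v) = !(σ v) := fun v => by simp [asg]
      have hsat' : ((σ c.1.2 == c.1.1) || (σ c.2.1.2 == c.2.1.1) ||
          (σ c.2.2.2 == c.2.2.1)) = true := by
        simp only [Bool.or_eq_true, beq_iff_eq]
        tauto
      simp only [cb, List.mem_cons, List.not_mem_nil, or_false] at hB
      obtain ⟨k1, k2, k3⟩ := core1 _ _ _ hsat'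
      rcases hB with rfl | rfl | rfl | rfl | rfl | rfl
      · rw [countP3, asg_lwn, e2, e3]
        exact k1
      · rw [countP3, asg_lw, e3, e4]
        exact k2
      · rw [countP3, asg_lwn, e4, e5]
        exact k3
      · rw [countP2, e0, e1]; cases σ c.1.2 <;> rfl
      · rw [countP2, e0, e1]; cases σ c.2.1.2 <;> rfl
      · rw [countP2, e0, e1]; cases σ c.2.2.2 <;> rfl
  · rintro ⟨τ, hτ⟩
    refine ⟨fun v => τ (0, v), ?_⟩
    intro c hc
    obtain ⟨i, hi, hci⟩ := List.getElem_of_mem hc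
    have hmem : ∀ B ∈ cb i c, B ∈ blocks φ := by
      intro B hB
      simp only [blocks, List.mem_cons, List.mem_flatMap]
      right
      refine ⟨(c, i), ?_, hB⟩
      rw [List.mem_zipIdx_iff_getElem?]
      simp only
      rw [List.getElem?_eq_getElem hi, hci]
    have h1 := (hτ _ (hmem [lwn c.1, (2, i), (3, i)] (by simp [cb]))).resolve_left (by simp)
    have h2 := (hτ _ (hmem [lw c.2.1, (3, i), (4, i)] (by simp [cb]))).resolve_left (by simp)
    have h3 := (hτ _ (hmem [lwn c.2.2, (4, i), (5, i)] (by simp [cb]))).resolve_left (by simp)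
    have h4 := (hτ _ (hmem [(0, c.1.2), (1, c.1.2)] (by simp [cb]))).resolve_left (by simp)
    have h5 := (hτ _ (hmem [(0, c.2.1.2), (1, c.2.1.2)] (by simp [cb]))).resolve_left (by simp)
    have h6 := (hτ _ (hmem [(0, c.2.2.2), (1, c.2.2.2)] (by simp [cb]))).resolve_left (by simp)
    rw [countP3] at h1 h2 h3
    rw [countP2] at h4 h5 h6
    have g : ∀ x y : Bool, x.toNat + y.toNat = 1 → y = !x := by decide
    have n1 : τ (lwn c.1) = !(τ (0, c.1.2) == c.1.1) := by
      unfold lwn
      cases c.1.1 <;> simp [g _ _ h4]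
    have n2 : τ (lw c.2.1) = (τ (0, c.2.1.2) == c.2.1.1) := by
      unfold lw
      cases c.2.1.1 <;> simp [g _ _ h5]
    have n3 : τ (lwn c.2.2) = !(τ (0, c.2.2.2) == c.2.2.1) := by
      unfold lwn
      cases c.2.2.1 <;> simp [g _ _ h6]
    rw [n1] at h1
    rw [n2] at h2
    rw [n3] at h3
    have := core2 _ _ _ _ _ _ _ h1 h2 h3
    simp only [Bool.or_eq_true, beq_iff_eq] at this
    tauto

theorem poly_blocks : Poly blocks := by
  have hlw : Poly lw := by
    exact Poly.pair (Poly.ite (Poly.decide_bool (Poly.fst Poly.id)) (Poly.const 0)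
      (Poly.const 1)) (Poly.snd Poly.id)
  have hlwn : Poly lwn := by
    exact Poly.pair (Poly.ite (Poly.decide_bool (Poly.fst Poly.id)) (Poly.const 1)
      (Poly.const 0)) (Poly.snd Poly.id)
  have hcb : Poly (fun p : Cl × ℕ => cb p.2 p.1) := by
    have ha : Poly (fun p : Cl × ℕ => p.1.1) := Poly.fst (Poly.fst Poly.id)
    have hb : Poly (fun p : Cl × ℕ => p.1.2.1) := Poly.fst (Poly.snd (Poly.fst Poly.id))
    have hc : Poly (fun p : Cl × ℕ => p.1.2.2) := Poly.snd (Poly.snd (Poly.fst Poly.id))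
    have hi : Poly (fun p : Cl × ℕ => p.2) := Poly.snd Poly.id
    have hk : ∀ k : ℕ, Poly (fun p : Cl × ℕ => (k, p.2)) := fun k => Poly.pair (Poly.const k) hi
    have h3 : ∀ {f g h : Cl × ℕ → ℕ × ℕ}, Poly f → Poly g → Poly h →
        Poly (fun p => [f p, g p, h p]) := fun hf hg hh =>
      Poly.cons hf (Poly.cons hg (Poly.cons hh (Poly.const [])))
    have h2 : ∀ {f : Cl × ℕ → Lit ℕ}, Poly f →
        Poly (fun p => [((0 : ℕ), (f p).2), ((1 : ℕ), (f p).2)]) := fun hf =>
      Poly.cons (Poly.pair (Poly.const 0) (Poly.snd hf))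
        (Poly.cons (Poly.pair (Poly.const 1) (Poly.snd hf)) (Poly.const []))
    exact Poly.cons (h3 (hlwn.comp ha) (hk 2) (hk 3))
      (Poly.cons (h3 (hlw.comp hb) (hk 3) (hk 4))
      (Poly.cons (h3 (hlwn.comp hc) (hk 4) (hk 5))
      (Poly.cons (h2 ha) (Poly.cons (h2 hb) (Poly.cons (h2 hc) (Poly.const []))))))
  exact Poly.cons (Poly.const _) (Poly.flatMap (F := fun _ (p : Cl × ℕ) => cb p.2 p.1)
    (Poly.zipIdx Poly.id) (hcb.comp (Poly.snd Poly.id)))

/-- The reduction. -/
def red (L : ℕ) (φ : List Cl) : List (List Bool) := bmat (0, 0) L (blocks φ)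

theorem poly_red (L : ℕ) : Poly (red L) := poly_bmat (0, 0) L poly_blocks

theorem red_correct {L : ℕ} (hL : 1 ≤ L) (φ : List Cl) :
    SAT3 φ ↔ HasHamCycle (matGraph (red L φ)) := by
  unfold red
  rw [bmat_ham (0, 0) hL (blocks φ) ⟨[(6, 0)], by simp [blocks], by simp⟩, blocks_correct]

theorem red_free {L j : ℕ} (hj : 6 ≤ j) (hL : j ≤ L) (φ : List Cl) :
    (treeH j).Free (matGraph (red L φ)) := bmat_free (0, 0) hj hL (blocks φ)

/-- NP-hardness, in the promise form: all instances produced are `H_j`-subgraph-free. -/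
theorem hardPr {j : ℕ} (hj : 6 ≤ j) :
    HardPr (fun A => (treeH j).Free (matGraph A)) (fun A => HasHamCycle (matGraph A)) :=
  (hardI_SAT3.toHardPr).trans (poly_red j) (fun φ _ => red_free hj le_rfl φ)
    (fun φ _ => red_correct (by omega) φ)

end Pool.Agent.NPC.HJ
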